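import Pool.Agent.H556Z.Core

/-! Linear realizations of the elements of the skew field generated by a point. -/

namespace Pool.Agent.H556Z.SR

open Matrix

variable {K : Type*} [Field K] {I : Type*} {E : Type*} [DivisionRing E] [Algebra K E]

/-- a linear system with a unique solution -/
structure Sys (K : Type*) [Field K] {I : Type*} {E : Type*} [DivisionRing E] [Algebra K E]
    (x : I → E) where
  ι : Type
  m : Type
  [fι : Fintype ι]
  [fm : Fintype m]
  M : m → ι → Pc K I
  c : m → K
  u : ι → E
  eq : ∀ r, ∑ i, ev x (M r i) * u i = algebraMap K E (c r)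
  inj : ∀ z : ι → E, (∀ r, ∑ i, ev x (M r i) * z i = 0) → ∀ i, z i = 0

attribute [instance] Sys.fι Sys.fm

variable {x : I → E}

def Tame (K : Type*) [Field K] {I : Type*} {E : Type*} [DivisionRing E] [Algebra K E]
    (x : I → E) (T : Set E) : Prop := ∃ S : Sys K x, T ⊆ Set.range S.u

/-- the constant form -/
noncomputable def cst (c : K) : Pc K I := Finsupp.single none c

@[simp] theorem ev_cst (c : K) : ev x (cst c : Pc K I) = algebraMap K E c := by
  simp [cst, Algebra.algebraMap_eq_smul_one]

theorem Tame.union {T T' : Set E} (h : Tame K x T) (h' : Tame K x T') : Tame K x (T ∪ T') := by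
  obtain ⟨S, hS⟩ := h
  obtain ⟨S', hS'⟩ := h'
  refine ⟨{ ι := S.ι ⊕ S'.ι
            m := S.m ⊕ S'.m
            M := fromBlocks (Matrix.of S.M) 0 0 (Matrix.of S'.M)
            c := Sum.elim S.c S'.c
            u := Sum.elim S.u S'.u
            eq := ?_
            inj := ?_ }, ?_⟩
  · rintro (r | r)
    · simpa [Fintype.sum_sum_type] using S.eq r
    · simpa [Fintype.sum_sum_type] using S'.eq r
  · rintro z hz (i | i)
    · exact S.inj (fun i => z (Sum.inl i))
        (fun r => by simpa [Fintype.sum_sum_type] using hz (Sum.inl r)) i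
    · exact S'.inj (fun i => z (Sum.inr i))
        (fun r => by simpa [Fintype.sum_sum_type] using hz (Sum.inr r)) i
  · rintro y (hy | hy)
    · obtain ⟨i, rfl⟩ := hS hy
      exact ⟨Sum.inl i, rfl⟩
    · obtain ⟨i, rfl⟩ := hS' hy
      exact ⟨Sum.inr i, rfl⟩

theorem tame_lin (S : Sys K x) (β : S.ι → K) : Tame K x {∑ i, β i • S.u i} := by
  refine ⟨{ ι := Option S.ι
            m := Option S.m
            M := fun r i => r.elim (i.elim (cst 1) fun i => cst (-β i))
              fun r => i.elim 0 fun i => S.M r i
            c := fun r => r.elim 0 S.c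
            u := fun i => i.elim (∑ i, β i • S.u i) S.u
            eq := ?_
            inj := ?_ }, ?_⟩
  · rintro (_ | r)
    · simp [Fintype.sum_option, Algebra.smul_def]
    · simpa [Fintype.sum_option] using S.eq r
  · intro z hz
    have h1 := S.inj (fun i => z (some i))
      (fun r => by simpa [Fintype.sum_option] using hz (some r))
    rintro (_ | i)
    · simpa [Fintype.sum_option, h1] using hz none
    · exact h1 i
  · rintro y rfl
    exact ⟨none, rfl⟩

theorem tame_mul (S : Sys K x) (i j : S.ι) : Tame K x {S.u i * S.u j} := by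
  classical
  refine ⟨{ ι := S.ι ⊕ S.ι
            m := S.m ⊕ S.m
            M := fromBlocks (Matrix.of S.M) 0
              (Matrix.of fun r k => if k = j then cst (-S.c r) else 0) (Matrix.of S.M)
            c := Sum.elim S.c 0
            u := Sum.elim S.u fun k => S.u k * S.u j
            eq := ?_
            inj := ?_ }, ?_⟩
  · rintro (r | r)
    · simpa [Fintype.sum_sum_type] using S.eq r
    · have := S.eq r
      simp [Fintype.sum_sum_type, apply_ite (ev x), ← mul_assoc, ← Finset.sum_mul, this]
  · intro z hz
    have h1 := S.inj (fun i => z (Sum.inl i))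
        (fun r => by simpa [Fintype.sum_sum_type] using hz (Sum.inl r))
    rintro (k | k)
    · exact h1 k
    · exact S.inj (fun i => z (Sum.inr i))
        (fun r => by simpa [Fintype.sum_sum_type, h1] using hz (Sum.inr r)) k
  · rintro y rfl
    exact ⟨Sum.inr i, rfl⟩

theorem tame_inv (S : Sys K x) (i : S.ι) (hi : S.u i ≠ 0) : Tame K x {(S.u i)⁻¹} := by
  classical
  refine ⟨{ ι := Option S.ι
            m := Option S.m
            M := fun r k => r.elim (k.elim 0 fun k => if k = i then cst 1 else 0)
              fun r => k.elim (cst (-S.c r)) fun k => S.M r k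
            c := fun r => r.elim 1 0
            u := fun k => k.elim (S.u i)⁻¹ fun k => S.u k * (S.u i)⁻¹
            eq := ?_
            inj := ?_ }, ?_⟩
  · rintro (_ | r)
    · simp [Fintype.sum_option, apply_ite (ev x), hi]
    · have := S.eq r
      simp [Fintype.sum_option, ← mul_assoc, ← Finset.sum_mul, this]
  · intro z hz
    have h1 := S.inj (fun k => z (some k) - S.u k * z none) (fun r => by
      have h2 := hz (some r)
      simp only [Fintype.sum_option, Option.elim, ev_cst, map_neg, neg_mul] at h2
      simp only [mul_sub, Finset.sum_sub_distrib, ← mul_assoc, ← Finset.sum_mul, S.eq r]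
      rw [← h2]; abel)
    have h2 : z (some i) = 0 := by simpa [Fintype.sum_option, apply_ite (ev x)] using hz none
    have h3 : z none = 0 := by
      have := h1 i
      simpa [h2, hi] using this
    rintro (_ | k)
    · exact h3
    · simpa [h3] using h1 k
  · rintro y rfl
    exact ⟨none, rfl⟩

theorem tame_cst (c : K) : Tame K x {algebraMap K E c} := by
  refine ⟨{ ι := Unit
            m := Unit
            M := fun _ _ => cst 1
            c := fun _ => c
            u := fun _ => algebraMap K E c
            eq := ?_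
            inj := ?_ }, ?_⟩
  · simp
  · intro z hz i
    simpa using hz i
  · rintro y rfl
    exact ⟨(), rfl⟩

theorem tame_var (k : I) : Tame K x {x k} := by
  refine ⟨{ ι := Bool
            m := Bool
            M := fun r i => if r then (if i then cst 1 else 0)
              else (if i then -Finsupp.single (some k) 1 else cst 1)
            c := fun r => if r then 1 else 0
            u := fun i => if i then 1 else x k
            eq := ?_
            inj := ?_ }, ?_⟩
  · rintro (_ | _) <;> simp
  · intro z hz
    have h1 : z true = 0 := by simpa using hz true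
    rintro (_ | _)
    · simpa [h1] using hz false
    · exact h1
  · rintro y rfl
    exact ⟨false, rfl⟩

theorem tame_pair {a b : E} (ha : Tame K x {a}) (hb : Tame K x {b}) :
    ∃ (S : Sys K x) (i j : S.ι), S.u i = a ∧ S.u j = b := by
  obtain ⟨S, hS⟩ := ha.union hb
  obtain ⟨i, hi⟩ := hS (Or.inl rfl)
  obtain ⟨j, hj⟩ := hS (Or.inr rfl)
  exact ⟨S, i, j, hi, hj⟩

theorem tame_of_mem {a : E}
    (ha : a ∈ Subfield.closure (Set.range (algebraMap K E) ∪ Set.range x)) : Tame K x {a} := by
  classical
  induction ha using Subfield.closure_induction with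
  | mem a ha =>
    rcases ha with ⟨c, rfl⟩ | ⟨k, rfl⟩
    · exact tame_cst c
    · exact tame_var k
  | one => simpa using tame_cst (x := x) (1 : K)
  | add a b _ _ ha hb =>
    obtain ⟨S, i, j, rfl, rfl⟩ := tame_pair ha hb
    have := tame_lin S (Pi.single i 1 + Pi.single j 1)
    simpa [add_smul, Finset.sum_add_distrib, Pi.single_apply] using this
  | neg a _ ha =>
    obtain ⟨S, i, -, rfl, -⟩ := tame_pair ha ha
    have := tame_lin S (-Pi.single i 1)
    simpa [Pi.single_apply] using this
  | inv a _ ha =>
    obtain ⟨S, i, -, rfl, -⟩ := tame_pair ha ha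
    by_cases hi : S.u i = 0
    · simpa [hi] using tame_cst (x := x) (0 : K)
    · exact tame_inv S i hi
  | mul a b _ _ ha hb =>
    obtain ⟨S, i, j, rfl, rfl⟩ := tame_pair ha hb
    exact tame_mul S i j

theorem tame_finite {T : Set E} (hT : T.Finite) (h : ∀ a ∈ T, Tame K x {a}) : Tame K x T := by
  induction T, hT using Set.Finite.induction_on with
  | empty =>
    obtain ⟨S, -⟩ := tame_cst (x := x) (0 : K)
    exact ⟨S, Set.empty_subset _⟩
  | insert _ _ ih =>
    rw [Set.insert_eq]
    exact (h _ (Set.mem_insert _ _)).union (ih fun a ha => h a (Set.mem_insert_of_mem _ ha))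

/-- normal form of a system -/
theorem Sys.normal (S : Sys K x) : ∃ (ι : Type) (_ : Fintype ι) (_ : DecidableEq ι)
    (M : Matrix ι ι (Pc K I)) (Mi : Matrix ι ι E) (c : ι → K) (u : ι → E) (C : Matrix S.ι ι K),
    M.map (ev x) * Mi = 1 ∧ Mi * M.map (ev x) = 1 ∧ (∀ i, u i = ∑ l, c l • Mi i l) ∧
      LinearIndependent K u ∧ ∀ i, S.u i = ∑ k, C i k • u k := by
  classical
  obtain ⟨κ, a, ha, hsp, hli⟩ := exists_linearIndependent' K S.u
  have : Finite κ := Finite.of_injective a ha
  have : Fintype κ := Fintype.ofFinite κ
  have hC : ∀ i, ∃ C : κ → K, ∑ k, C k • (S.u ∘ a) k = S.u i := by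
    intro i
    rw [← Submodule.mem_span_range_iff_exists_fun, hsp]
    exact Submodule.subset_span ⟨i, rfl⟩
  choose C hC using hC
  have hCa : ∀ k k', C (a k) k' = if k' = k then 1 else 0 := by
    intro k k'
    have h1 := Fintype.linearIndependent_iff.1 hli (fun k' => C (a k) k' - if k' = k then 1 else 0)
      (by simp only [sub_smul, Finset.sum_sub_distrib, hC]; simp) k'
    exact sub_eq_zero.1 h1
  let N : Matrix S.m κ (Pc K I) := Matrix.of fun r k => ∑ i, C i k • S.M r i
  have hN : ∀ (z : κ → E) r, (N.map (ev x) *ᵥ z) r = ∑ i, ev x (S.M r i) * ∑ k, C i k • z k := by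
    intro z r
    simp only [N, mulVec, dotProduct, Matrix.map_apply, Matrix.of_apply, map_sum, map_smul,
      Finset.sum_mul, Finset.mul_sum, smul_mul_assoc, mul_smul_comm]
    exact Finset.sum_comm
  have hinj : ∀ z, N.map (ev x) *ᵥ z = 0 → z = 0 := by
    intro z hz
    have h1 := S.inj (fun i => ∑ k, C i k • z k) (fun r => by rw [← hN, hz]; rfl)
    funext k
    simpa [hCa] using h1 (a k)
  obtain ⟨e, he⟩ := exists_rows _ hinj
  obtain ⟨G, hG1, hG2⟩ := inv_of_inj _ he
  refine ⟨κ, inferInstance, inferInstance, N.submatrix e id, G, fun k => S.c (e k), S.u ∘ a,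
    Matrix.of C, hG1, hG2, ?_, hli, fun i => (hC i).symm⟩
  have h1 : (N.map (ev x)).submatrix e id *ᵥ (S.u ∘ a) = fun k => algebraMap K E (S.c (e k)) := by
    funext k
    have := hN (S.u ∘ a) (e k)
    simp only [hC, S.eq] at this
    exact this
  have h2 := congrArg (fun z => G *ᵥ z) h1
  simp only [Matrix.mulVec_mulVec, hG2, Matrix.one_mulVec] at h2
  intro i
  rw [h2]
  simp only [mulVec, dotProduct, Algebra.smul_def, Algebra.commutes]

/-- A hermitian pencil without common isotropic vector over `K` is anisotropic over the skew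
field generated by a generic point. -/
theorem aniso [StarRing E] (hx : Generic K x)
    (hK : ∀ c : K, star (algebraMap K E c) = algebraMap K E c)
    (bar : Pc K I → Pc K I) (hbar : ∀ l, ev x (bar l) = star (ev x l))
    {S : Type*} [Fintype S] (A : Matrix S S (Pc K I))
    (hA : ∀ a b, star (ev x (A a b)) = ev x (A b a))
    (hiso : ∀ v : S → K, (∀ o, ∑ a, ∑ b, v a * A a b o * v b = 0) → v = 0)
    (lam : S → E)
    (hlam : ∀ a, lam a ∈ Subfield.closure (Set.range (algebraMap K E) ∪ Set.range x))
    (h0 : ∑ a, ∑ b, star (lam a) * ev x (A a b) * lam b = 0) : lam = 0 := by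
  classical
  obtain ⟨T, hT⟩ := tame_finite (K := K) (x := x) (Set.finite_range lam)
    (by rintro _ ⟨a, rfl⟩; exact tame_of_mem (hlam a))
  choose g hg using fun a => hT ⟨a, rfl⟩
  obtain ⟨ι, _, _, M, Mi, c, u, C, h1, h2, hu, hli, hC⟩ := T.normal
  let B : Matrix S ι K := C.submatrix g id
  have hB : ∀ a, lam a = ∑ i, B a i • u i := fun a => by rw [← hg, hC]; rfl
  let G : Matrix ι ι (Pc K I) := Matrix.of fun i j => ∑ a, ∑ b, (B a i * B b j) • A a b
  have hGo : ∀ (v' v : ι → K) o, ∑ i, ∑ j, v' i * G i j o * v j =
      ∑ a, ∑ b, (B *ᵥ v') a * A a b o * (B *ᵥ v) b := by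
    intro v' v o
    simp only [G, Matrix.of_apply, Finsupp.finsetSum_apply, Finsupp.smul_apply, smul_eq_mul,
      mulVec, dotProduct, Finset.sum_mul, Finset.mul_sum]
    calc ∑ i, ∑ j, ∑ a, ∑ b, v' i * (B a i * B b j * A a b o) * v j
        = ∑ a, ∑ b, ∑ i, ∑ j, v' i * (B a i * B b j * A a b o) * v j := by
          rw [← Fintype.sum_prod_type', ← Fintype.sum_prod_type' (α₁ := S) (α₂ := S)
              (f := fun a b => ∑ i, ∑ j, v' i * (B a i * B b j * A a b o) * v j)]
          simp only [← Fintype.sum_prod_type' (α₁ := ι) (α₂ := ι),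
            ← Fintype.sum_prod_type' (α₁ := S) (α₂ := S)]
          exact Finset.sum_comm
      _ = _ := by
          refine Finset.sum_congr rfl fun a _ => Finset.sum_congr rfl fun b _ => ?_
          rw [Finset.sum_comm]
          refine Finset.sum_congr rfl fun j _ => Finset.sum_congr rfl fun i _ => ?_
          ring
  funext a
  rw [hB, Pi.zero_apply]
  refine aniso_core hx hK bar hbar M Mi h1 h2 c u hu hli G ?_ ?_ B ?_ ?_ a
  · ext i j
    simp only [G, conjTranspose_apply, Matrix.map_apply, Matrix.of_apply, map_sum, map_smul,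
      star_sum, star_smul_of hK, hA]
    rw [Finset.sum_comm]
    simp only [mul_comm]
  · rw [← h0]
    simp only [G, hB, Matrix.of_apply, map_sum, map_smul, star_sum, star_smul_of hK,
      Finset.sum_mul, Finset.mul_sum, smul_mul_assoc, mul_smul_comm]
    calc ∑ i, ∑ j, ∑ a, ∑ b, (B a i * B b j) • (star (u i) * ev x (A a b) * u j)
        = ∑ a, ∑ b, ∑ i, ∑ j, (B a i * B b j) • (star (u i) * ev x (A a b) * u j) := by
          rw [← Fintype.sum_prod_type', ← Fintype.sum_prod_type' (α₁ := S) (α₂ := S)
              (f := fun a b => ∑ i, ∑ j, (B a i * B b j) • (star (u i) * ev x (A a b) * u j))]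
          simp only [← Fintype.sum_prod_type' (α₁ := ι) (α₂ := ι),
            ← Fintype.sum_prod_type' (α₁ := S) (α₂ := S)]
          exact Finset.sum_comm
      _ = _ := by
          refine Finset.sum_congr rfl fun a _ => Finset.sum_congr rfl fun b _ => ?_
          rw [Finset.sum_comm]
          refine Finset.sum_congr rfl fun j _ => ?_
          rw [Finset.smul_sum]
          refine Finset.sum_congr rfl fun i _ => ?_
          rw [mul_comm (B a i), smul_smul]
  · intro v hv
    apply hiso
    intro o
    rw [← hGo, hv]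
  · intro v hv v' o
    rw [hGo, hv]
    simp

end Pool.Agent.H556Z.SR
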