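import Pool.Agent.H556Z.Level

/-! A generic point in a skew field with involution. -/

namespace Pool.Agent.H556Z.SR

open Matrix Filter

universe u


variable {K : Type u} [Field K] {I : Type u}

theorem ev_mapMatrix {A B : Type*} [Ring A] [Algebra K A] [Ring B] [Algebra K B] (φ : A →ₐ[K] B)
    (x : I → A) {s : Type} [Fintype s] [DecidableEq s] (H : Matrix s s (Pc K I)) :
    φ.mapMatrix (H.map (ev x)) = H.map (ev fun k => φ (x k)) := by
  ext1 i j
  exact ev_map φ x (H i j)

theorem ev_transfer {A B : Type*} [Ring A] [Algebra K A] [Ring B] [Algebra K B] (φ : A →ₐ[K] B)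
    {x : I → A} {s : Type} [Fintype s] [DecidableEq s] {H : Matrix s s (Pc K I)}
    {G : Matrix s s A} (h : H.map (ev x) * G = 1) :
    H.map (ev fun k => φ (x k)) * G.map φ = 1 := by
  have h1 := congrArg φ.mapMatrix h
  rwa [map_mul, map_one, ev_mapMatrix] at h1

theorem adj_lemma {C : Type u} [CommRing C] [Algebra K C] {α s : Type} [Fintype α] [DecidableEq α]
    [Fintype s] [DecidableEq s] (X : I → Matrix α α C) (H : Matrix s s (Pc K I)) (b c : s → K) :
    ∃ (Δ : C) (e : Matrix α α C), ∀ (R : Type u) [Field R] [Algebra K R] (θ : C →ₐ[K] R),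
      (∀ G', H.map (ev fun k => θ.mapMatrix (X k)) * G' = 1 →
        θ Δ ≠ 0 ∧ θ.mapMatrix e = θ Δ • bil b G' c) ∧
      (θ Δ ≠ 0 → ∃ G', H.map (ev fun k => θ.mapMatrix (X k)) * G' = 1 ∧
        G' * H.map (ev fun k => θ.mapMatrix (X k)) = 1) := by
  obtain ⟨HC, hHC⟩ : ∃ HC, HC = H.map (ev X) := ⟨_, rfl⟩
  obtain ⟨Δ, Adj, hΔ, h1, h2⟩ : ∃ (Δ : C) (Adj : Matrix s s (Matrix α α C)),
      Δ = (Matrix.compAlgEquiv s α C C HC).det ∧ HC * Adj = Δ • 1 ∧ Adj * HC = Δ • 1 := by
    refine ⟨_, (Matrix.compAlgEquiv s α C C).symm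
      (adjugate (Matrix.compAlgEquiv s α C C HC)), rfl, ?_, ?_⟩
    · apply (Matrix.compAlgEquiv s α C C).injective
      rw [map_mul, AlgEquiv.apply_symm_apply, mul_adjugate, map_smul, map_one]
    · apply (Matrix.compAlgEquiv s α C C).injective
      rw [map_mul, AlgEquiv.apply_symm_apply, adjugate_mul, map_smul, map_one]
  refine ⟨Δ, bil b Adj c, ?_⟩
  intro R _ _ θ
  have hH : H.map (ev fun k => θ.mapMatrix (X k)) = θ.mapMatrix.mapMatrix HC := by
    rw [hHC, ev_mapMatrix]
  have hs : θ.mapMatrix.mapMatrix (Δ • (1 : Matrix s s (Matrix α α C))) = θ Δ • 1 := by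
    ext i j a a'
    simp only [AlgHom.mapMatrix_apply, Matrix.map_apply, Matrix.smul_apply, smul_eq_mul,
      map_mul, Matrix.one_apply]
    split_ifs
    · simp only [Matrix.one_apply]
      split_ifs <;> simp
    · simp
  have k1 := congrArg θ.mapMatrix.mapMatrix h1
  have k2 := congrArg θ.mapMatrix.mapMatrix h2
  rw [map_mul, hs] at k1 k2
  rw [hH]
  constructor
  · intro G' hG'
    constructor
    · have e1 := congrArg (fun M => (Matrix.compAlgEquiv s α R R M).det) hG'
      simp only [map_mul, map_one, det_mul, det_one] at e1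
      have e2 : θ Δ = (Matrix.compAlgEquiv s α R R (θ.mapMatrix.mapMatrix HC)).det := by
        rw [hΔ, AlgHom.map_det]
        congr 1
      rw [e2]
      exact left_ne_zero_of_mul_eq_one e1
    · have e1 : θ.mapMatrix.mapMatrix Adj = θ Δ • G' := by
        rw [← mul_one (θ.mapMatrix.mapMatrix Adj), ← hG', ← mul_assoc, k2, smul_mul_assoc, one_mul]
      have e3 : ∀ i j, θ.mapMatrix (Adj i j) = θ Δ • G' i j :=
        fun i j => congrFun (congrFun e1 i) j
      simp only [bil, Finset.smul_sum, map_sum, map_smul, e3]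
      exact Finset.sum_congr rfl fun i _ => Finset.sum_congr rfl fun j _ => smul_comm _ _ _
  · intro h
    refine ⟨(θ Δ)⁻¹ • θ.mapMatrix.mapMatrix Adj, ?_, ?_⟩
    · rw [mul_smul_comm, k1, smul_smul, inv_mul_cancel₀ h, one_smul]
    · rw [smul_mul_assoc, k2, smul_smul, inv_mul_cancel₀ h, one_smul]

variable {n : ℕ}

noncomputable def spec (v : Vr I n → K) (s : K) : CC K I n →ₐ[K] K :=
  Polynomial.eval₂AlgHom (MvPolynomial.aeval v) s (fun _ => Commute.all _ _)

theorem exists_spec [Infinite K] {p : CC K I n} (hp : p ≠ 0) : ∃ v s, spec v s p ≠ 0 := by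
  obtain ⟨s, hs⟩ : ∃ s : K, p.eval (MvPolynomial.C s) ≠ 0 := by
    by_contra h
    push Not at h
    apply hp
    apply Polynomial.eq_zero_of_infinite_isRoot
    refine (Set.infinite_range_of_injective (MvPolynomial.C_injective (Vr I n) K)).mono ?_
    rintro _ ⟨s, rfl⟩
    exact h s
  obtain ⟨v, hv⟩ : ∃ v, MvPolynomial.eval v (p.eval (MvPolynomial.C s)) ≠ 0 := by
    by_contra h
    push Not at h
    exact hs (MvPolynomial.funext fun v => by rw [h, map_zero])
  refine ⟨v, s, ?_⟩
  rw [← Polynomial.eval₂_at_apply, MvPolynomial.eval_C] at hv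
  exact hv

theorem val_eq {s : Type} [Fintype s] [DecidableEq s] {H : Matrix s s (Pc K I)}
    {G : Matrix s s (DD K I n)} (hG : H.map (ev (XD K n)) * G = 1) :
    H.map (ev fun k => (IsScalarTower.toAlgHom K (CC K I n) (LL K I n)).mapMatrix (XC k)) *
      G.map (DD K I n).val = 1 := by
  have h1 := ev_transfer (DD K I n).val hG
  have h2 : ∀ k, (DD K I n).val (XD K n k) =
      (IsScalarTower.toAlgHom K (CC K I n) (LL K I n)).mapMatrix (XC k) := by
    intro k
    rw [AlgHom.mapMatrix_apply, IsScalarTower.coe_toAlgHom', Subalgebra.val_apply, XD]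
  simp only [h2] at h1
  exact h1

theorem level1 {s : Type} [Fintype s] [DecidableEq s] {H : Matrix s s (Pc K I)}
    {G : Matrix s s (DD K I n)} {b c : s → K} (hG : H.map (ev (XD K n)) * G = 1)
    (h0 : bil b G c = 0) (P : I → Matrix (Fin (n + 1)) (Fin (n + 1)) K)
    (G' : Matrix s s (Matrix (Fin (n + 1)) (Fin (n + 1)) K)) (hG' : H.map (ev P) * G' = 1) :
    bil b G' c = 0 := by
  obtain ⟨Δ, e, h⟩ := adj_lemma (XC (K := K) (I := I) (n := n)) H b c
  have h1 := ((h _ (IsScalarTower.toAlgHom K (CC K I n) (LL K I n))).1 _ (val_eq hG)).2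
  have h2 := bil_map (DD K I n).val.toLinearMap b G c
  rw [h0, map_zero] at h2
  have h3 : bil b (G.map (DD K I n).val) c = 0 := h2.symm
  rw [h3, smul_zero] at h1
  have he : e = 0 := by
    ext1 i j
    apply alg_inj
    rw [Matrix.zero_apply, map_zero]
    exact congrFun (congrFun h1 i) j
  have hP : (fun k => (spec (fun v => P v.1 v.2.1 v.2.2) 1).mapMatrix (XC k)) = P := by
    funext k
    ext a b
    simp only [AlgHom.mapMatrix_apply, Matrix.map_apply, XC, Matrix.of_apply, map_mul]
    split_ifs <;> simp [spec]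
  have h4 := (h K (spec (fun v => P v.1 v.2.1 v.2.2) 1)).1 G' (by rw [hP]; exact hG')
  rw [he, map_zero, eq_comm, smul_eq_zero] at h4
  exact h4.2.resolve_left h4.1

theorem level2 [Infinite K] {s : Type} [Fintype s] [DecidableEq s] {H : Matrix s s (Pc K I)}
    {G : Matrix s s (DD K I n)} {b c : s → K} (hG : H.map (ev (XD K n)) * G = 1)
    (h0 : bil b G c ≠ 0) : ∃ (P : I → Matrix (Fin (n + 1)) (Fin (n + 1)) K)
    (G' : Matrix s s (Matrix (Fin (n + 1)) (Fin (n + 1)) K)), H.map (ev P) * G' = 1 ∧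
      G' * H.map (ev P) = 1 ∧ bil b G' c ≠ 0 := by
  obtain ⟨Δ, e, h⟩ := adj_lemma (XC (K := K) (I := I) (n := n)) H b c
  obtain ⟨h1, h1'⟩ := (h _ (IsScalarTower.toAlgHom K (CC K I n) (LL K I n))).1 _ (val_eq hG)
  have h2 := bil_map (DD K I n).val.toLinearMap b G c
  have h3 : bil b (G.map (DD K I n).val) c ≠ 0 := by
    intro h3
    apply h0
    apply Subtype.ext
    exact h2.trans h3
  have hΔ : Δ ≠ 0 := fun h => h1 (by rw [h, map_zero])
  have he : e ≠ 0 := by
    intro he
    rw [he, map_zero, eq_comm, smul_eq_zero] at h1'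
    exact h1'.elim h1 h3
  obtain ⟨i, j, hij⟩ : ∃ i j, e i j ≠ 0 := by
    by_contra hall
    push Not at hall
    exact he (Matrix.ext hall)
  obtain ⟨v, t, hv⟩ := exists_spec (mul_ne_zero hΔ hij)
  rw [map_mul] at hv
  obtain ⟨G', k1, k2⟩ := (h K (spec v t)).2 (left_ne_zero_of_mul hv)
  refine ⟨_, G', k1, k2, ?_⟩
  intro h4
  have h5 := ((h K (spec v t)).1 G' k1).2
  rw [h4, smul_zero] at h5
  exact right_ne_zero_of_mul hv (congrFun (congrFun h5 i) j)

noncomputable def UF : Ultrafilter ℕ := (hyperfilter ℕ).map fun j => j.factorial - 1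

theorem UF_dvd {e : ℕ} (he : 0 < e) : ∀ᶠ n in (UF : Filter ℕ), e ∣ n + 1 := by
  rw [UF, Ultrafilter.coe_map, eventually_map]
  apply hyperfilter_le_cofinite
  rw [Nat.cofinite_eq_atTop]
  filter_upwards [eventually_ge_atTop e] with j hj
  show e ∣ j.factorial - 1 + 1
  rw [Nat.sub_add_cancel (Nat.factorial_pos j)]
  exact Nat.dvd_factorial he hj

variable (K I) in
noncomputable def con : RingCon (∀ n, DD K I n) where
  r a b := ∀ᶠ n in (UF : Filter ℕ), a n = b n
  iseqv := ⟨fun _ => Eventually.of_forall fun _ => rfl, fun h => h.mono fun _ => Eq.symm,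
    fun h h' => (h.and h').mono fun _ k => k.1.trans k.2⟩
  mul' h h' := (h.and h').mono fun _ k => by rw [Pi.mul_apply, Pi.mul_apply, k.1, k.2]
  add' h h' := (h.and h').mono fun _ k => by rw [Pi.add_apply, Pi.add_apply, k.1, k.2]

variable (K I) in
/-- the ultraproduct -/
def EE : Type u := (con K I).Quotient

noncomputable instance : Ring (EE K I) := inferInstanceAs (Ring (con K I).Quotient)
noncomputable instance : Algebra K (EE K I) := inferInstanceAs (Algebra K (con K I).Quotient)

noncomputable def mkE : (∀ n, DD K I n) →ₐ[K] EE K I := RingCon.mkₐ K (con K I)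

theorem mkE_surj : Function.Surjective (mkE (K := K) (I := I)) := RingCon.mkₐ_surjective _

theorem mkE_eq {a b : ∀ n, DD K I n} : mkE a = mkE b ↔ ∀ᶠ n in (UF : Filter ℕ), a n = b n :=
  RingCon.eq (con K I)

instance : Nontrivial (EE K I) := ⟨⟨mkE 0, mkE 1, by
  rw [ne_eq, mkE_eq]
  intro h
  obtain ⟨n, hn⟩ := h.exists
  exact zero_ne_one hn⟩⟩

theorem EE_isUnit (a : EE K I) : IsUnit a ∨ a = 0 := by
  obtain ⟨a, rfl⟩ := mkE_surj a
  by_cases h : ∀ᶠ n in (UF : Filter ℕ), a n = 0
  · right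
    rw [← map_zero mkE, mkE_eq]
    exact h
  · left
    rw [← Ultrafilter.eventually_not] at h
    refine ⟨⟨mkE a, mkE fun n => Ring.inverse (a n), ?_, ?_⟩, rfl⟩
    · rw [← map_mul, ← map_one mkE, mkE_eq]
      exact h.mono fun n hn => Ring.mul_inverse_cancel _ ((DD_isUnit _).resolve_right hn)
    · rw [← map_mul, ← map_one mkE, mkE_eq]
      exact h.mono fun n hn => Ring.inverse_mul_cancel _ ((DD_isUnit _).resolve_right hn)

noncomputable instance : DivisionRing (EE K I) := DivisionRing.ofIsUnitOrEqZero EE_isUnit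

section
variable [InvolutiveInv I]

noncomputable def starE (a : EE K I) : EE K I :=
  Quotient.map' (s₁ := (con K I).toSetoid) (s₂ := (con K I).toSetoid) star
    (fun _ _ h => Eventually.mono h fun _ k => congrArg star k) a

theorem starE_mk (a : ∀ n, DD K I n) : starE (mkE a) = mkE (star a) := rfl

noncomputable instance : StarRing (EE K I) where
  star := starE
  star_involutive a := by
    obtain ⟨a, rfl⟩ := mkE_surj a
    rw [starE_mk, starE_mk, star_star]
  star_mul a b := by
    obtain ⟨a, rfl⟩ := mkE_surj a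
    obtain ⟨b, rfl⟩ := mkE_surj b
    rw [← map_mul, starE_mk, starE_mk, starE_mk, star_mul, map_mul]
  star_add a b := by
    obtain ⟨a, rfl⟩ := mkE_surj a
    obtain ⟨b, rfl⟩ := mkE_surj b
    rw [← map_add, starE_mk, starE_mk, starE_mk, star_add, map_add]

theorem star_mkE (a : ∀ n, DD K I n) : star (mkE a) = mkE (star a) := rfl

theorem EE_star_alg (c : K) : star (algebraMap K (EE K I) c) = algebraMap K (EE K I) c := by
  rw [← mkE.commutes, star_mkE]
  congr 1
  funext n
  exact DD_star_alg c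

end

variable (K) in
noncomputable def xE (k : I) : EE K I := mkE fun n => XD K n k

theorem xE_star [InvolutiveInv I] (k : I) : star (xE K k) = xE K k⁻¹ := by
  rw [xE, star_mkE, xE]
  congr 1
  funext n
  exact XD_star k

theorem lift_eq {s : Type} [Fintype s] [DecidableEq s] {H : Matrix s s (Pc K I)}
    {g : Matrix s s (∀ n, DD K I n)} (hG : H.map (ev (xE K)) * g.map mkE = 1) :
    ∀ᶠ n in (UF : Filter ℕ), H.map (ev (XD K n)) * g.map (fun a => a n) = 1 := by
  obtain ⟨X, hX⟩ : ∃ X : I → ∀ n, DD K I n, X = fun k n => XD K n k := ⟨_, rfl⟩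
  have h1 : mkE.mapMatrix (H.map (ev X) * g) = mkE.mapMatrix 1 := by
    rw [map_mul, map_one, ev_mapMatrix, hX]
    exact hG
  have h2 : ∀ p : s × s, ∀ᶠ n in (UF : Filter ℕ), (H.map (ev X) * g) p.1 p.2 n =
      (1 : Matrix s s (∀ n, DD K I n)) p.1 p.2 n :=
    fun p => mkE_eq.1 (congrFun (congrFun h1 p.1) p.2)
  filter_upwards [eventually_all.2 h2] with n hn
  have h3 : (Pi.evalAlgHom K (fun n => DD K I n) n).mapMatrix (H.map (ev X) * g)
      = (Pi.evalAlgHom K (fun n => DD K I n) n).mapMatrix 1 := by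
    ext1 i j
    exact hn (i, j)
  rw [map_mul, map_one, ev_mapMatrix, hX] at h3
  exact h3

theorem exists_emb {α : Type} [Fintype α] [DecidableEq α] (h : Fintype.card α ∣ n + 1) :
    ∃ φ : Matrix α α K →ₐ[K] Matrix (Fin (n + 1)) (Fin (n + 1)) K, Function.Injective φ := by
  obtain ⟨l, hl⟩ := h
  have hl0 : l ≠ 0 := by rintro rfl; simp at hl
  have : NeZero l := ⟨hl0⟩
  let e : α × Fin l ≃ Fin (n + 1) := Fintype.equivOfCardEq (by simp [hl])
  let ψ : Matrix α α K →ₐ[K] Matrix (α × Fin l) (α × Fin l) K :=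
    AlgHom.mk' ((blockDiagonalRingHom α (Fin l) K).comp (Pi.constRingHom (Fin l) _))
      (fun c M => blockDiagonal_smul c (fun _ => M))
  refine ⟨(reindexAlgEquiv K K e).toAlgHom.comp ψ, ?_⟩
  intro M N hMN
  have h1 : ψ M = ψ N := (reindexAlgEquiv K K e).injective hMN
  have h2 : blockDiagonal (fun _ : Fin l => M) = blockDiagonal (fun _ : Fin l => N) := h1
  exact congrFun (blockDiagonal_injective h2) 0

theorem xE_generic [Infinite K] : Generic K (xE K (I := I)) where
  t1 := by
    intro s _ _ H G b c hG h0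
    choose g hg using fun i j => mkE_surj (G i j)
    have hGg : G = (Matrix.of g).map mkE := by
      ext1 i j
      exact (hg i j).symm
    rw [hGg] at hG h0
    have h1 := lift_eq hG
    have h2 : ¬ ∀ᶠ n in (UF : Filter ℕ), bil b (Matrix.of g) c n = 0 := by
      intro h
      apply h0
      have := bil_map mkE.toLinearMap b (Matrix.of g) c
      refine this.symm.trans ?_
      rw [← map_zero mkE]
      exact mkE_eq.2 h
    rw [← Ultrafilter.eventually_not] at h2
    obtain ⟨n, k1, k2⟩ := (h1.and h2).exists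
    have k3 := bil_map (Pi.evalAlgHom K (fun n => DD K I n) n).toLinearMap b (Matrix.of g) c
    obtain ⟨P, G', h⟩ := level2 (b := b) (c := c) k1 (fun h => k2 (k3.trans h))
    exact ⟨_, _, _, P, G', h⟩
  t2 := by
    intro s _ _ H G b c hG h0 α _ _ P G' hG'
    rcases Nat.eq_zero_or_pos (Fintype.card α) with hα | hα
    · have := Fintype.card_eq_zero_iff.1 hα
      exact Subsingleton.elim _ _
    choose g hg using fun i j => mkE_surj (G i j)
    have hGg : G = (Matrix.of g).map mkE := by
      ext1 i j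
      exact (hg i j).symm
    rw [hGg] at hG h0
    have h1 := lift_eq hG
    have h2 : ∀ᶠ n in (UF : Filter ℕ), bil b (Matrix.of g) c n = 0 := by
      have := (bil_map mkE.toLinearMap b (Matrix.of g) c).trans h0
      rw [← map_zero mkE] at this
      exact mkE_eq.1 this
    obtain ⟨n, ⟨k1, k2⟩, k4⟩ := ((h1.and h2).and (UF_dvd hα)).exists
    have k3 := bil_map (Pi.evalAlgHom K (fun n => DD K I n) n).toLinearMap b (Matrix.of g) c
    obtain ⟨φ, hφ⟩ := exists_emb (K := K) k4
    have k5 := level1 (b := b) (c := c) k1 (k3.symm.trans k2) (fun k => φ (P k)) (G'.map φ)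
      (ev_transfer φ hG')
    apply hφ
    rw [map_zero, ← k5]
    exact bil_map φ.toLinearMap b G' c

end Pool.Agent.H556Z.SR
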