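import Pool.Agent.H556Z.Rep
import Pool.Agent.H556Z.Ultra
import Pool.Agent.H556Z.Sys

/-! Star-regular algebras over a field are representable. -/

namespace Pool.Agent.H556Z.SR

open Matrix

universe u

/-- index set of the variables -/
def Ix (J : Type u) : Type u := J × Bool

instance (J : Type u) : InvolutiveInv (Ix J) where
  inv p := (p.1, !p.2)
  inv_inv p := by simp

open Polynomial in
theorem iso_poly {K R J S : Type*} [Field K] [Ring R] [StarRing R] [Algebra K R] [Fintype S]
    (hp : ∀ x : R, star x * x = 0 → x = 0) (hs : ∀ (c : K) (r : R), star (c • r) = c • star r)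
    (e : Module.Basis J K R) (a : S → R) (ha : LinearIndependent K a) (w : S → K[X])
    (h : ∀ j, ∑ p, ∑ q, w p * C (e.repr (star (a p) * a q) j) * w q = 0) : w = 0 := by
  classical
  by_contra hne
  obtain ⟨p0, hp0⟩ := Function.ne_iff.1 hne
  obtain ⟨p1, hp1, hmax⟩ := Finset.exists_max_image (Finset.univ.filter fun p => w p ≠ 0)
    (fun p => (w p).natDegree) ⟨p0, by simpa using hp0⟩
  have hle : ∀ p, (w p).natDegree ≤ (w p1).natDegree := by
    intro p
    by_cases hw : w p = 0
    · simp [hw]
    · exact hmax p (by simpa using hw)
  obtain ⟨m, hm⟩ : ∃ m, m = (w p1).natDegree := ⟨_, rfl⟩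
  rw [← hm] at hle
  have h1 : star (∑ p, (w p).coeff m • a p) * ∑ p, (w p).coeff m • a p = 0 := by
    apply e.repr.injective
    ext j
    have := congrArg (fun P => P.coeff (m + m)) (h j)
    simp only [finsetSum_coeff, coeff_zero] at this
    simp only [star_sum, hs, Finset.sum_mul, Finset.mul_sum, smul_mul_assoc, mul_smul_comm,
      map_sum, map_smul, Finsupp.finsetSum_apply, Finsupp.smul_apply, smul_eq_mul, map_zero,
      Finsupp.zero_apply]
    rw [Finset.sum_comm, ← this]
    refine Finset.sum_congr rfl fun p _ => Finset.sum_congr rfl fun q _ => ?_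
    rw [mul_right_comm, coeff_mul_C, coeff_mul_add_eq_of_natDegree_le (hle _) (hle _)]
    ring
  have h2 := Fintype.linearIndependent_iff.1 ha _ (hp _ h1) p1
  rw [hm, coeff_natDegree, leadingCoeff_eq_zero] at h2
  exact (Finset.mem_filter.1 hp1).2 h2

open Polynomial in
theorem iso_rat {K R J S : Type*} [Field K] [Ring R] [StarRing R] [Algebra K R] [Fintype S]
    (hp : ∀ x : R, star x * x = 0 → x = 0) (hs : ∀ (c : K) (r : R), star (c • r) = c • star r)
    (e : Module.Basis J K R) (a : S → R) (ha : LinearIndependent K a) (v : S → RatFunc K)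
    (h : ∀ j, ∑ p, ∑ q, v p * algebraMap K (RatFunc K) (e.repr (star (a p) * a q) j) * v q = 0) :
    v = 0 := by
  obtain ⟨⟨d, hd⟩, hd'⟩ := IsLocalization.exist_integer_multiples_of_finite
    (nonZeroDivisors K[X]) v
  choose w hw using hd'
  have hd0 : algebraMap K[X] (RatFunc K) d ≠ 0 :=
    (map_ne_zero_iff _ (IsFractionRing.injective _ _)).2 (nonZeroDivisors.ne_zero hd)
  have h1 := iso_poly hp hs e a ha w (by
    intro j
    apply IsFractionRing.injective K[X] (RatFunc K)
    have h2 := congrArg (fun y => algebraMap K[X] (RatFunc K) d * algebraMap K[X] (RatFunc K) d * y)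
      (h j)
    simp only [mul_zero, Finset.mul_sum] at h2
    simp only [map_sum, map_mul, hw, map_zero, Algebra.smul_def, RatFunc.algebraMap_C]
    rw [← h2]
    refine Finset.sum_congr rfl fun p _ => Finset.sum_congr rfl fun q _ => ?_
    rw [RatFunc.algebraMap_eq_C]
    ring)
  funext p
  have h3 := hw p
  rw [h1, Pi.zero_apply, map_zero, Algebra.smul_def, eq_comm, mul_eq_zero] at h3
  exact h3.resolve_left hd0

theorem holds_of_generic {K₀ K R J E : Type u} [Field K₀] [Field K] [Algebra K₀ K] [Ring R]
    [StarRing R] [Algebra K₀ R] [DivisionRing E] [StarRing E] [Algebra K E]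
    (hR : IsStarRegular R) (hs : ∀ (c : K₀) (r : R), star (c • r) = c • star r)
    (e : Module.Basis J K₀ R) (x : Ix J → E) (hx : Generic K x)
    (hK : ∀ c : K, star (algebraMap K E c) = algebraMap K E c)
    (hxs : ∀ k, star (x k) = x k⁻¹)
    (hiso : ∀ (S : Finset J) (v : S → K), (∀ j, ∑ p : S, ∑ q : S,
      v p * algebraMap K₀ K (e.repr (star (e p) * e q) j) * v q = 0) → v = 0)
    {s t : Tm}
    (h : ∀ (A : Type u) [Ring A] [StarRing A], IsStarRegular A → IsArtinianRing A →
      IsArtinianRing Aᵐᵒᵖ → Holds A s t) : Holds R s t := by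
  classical
  let bar : Pc K (Ix J) → Pc K (Ix J) := Finsupp.mapDomain (Option.map Inv.inv)
  have hbar : ∀ l, ev x (bar l) = star (ev x l) := by
    intro l
    induction l using Finsupp.induction_linear with
    | zero => simp [bar]
    | add f g hf hg =>
      simp only [bar, Finsupp.mapDomain_add, map_add, star_add] at *
      rw [hf, hg]
    | single o c =>
      cases o <;> simp [bar, star_smul_of hK, hxs]
  let F := Subfield.closure (Set.range (algebraMap K E) ∪ Set.range x)
  have hF1 : ∀ c, algebraMap K E c ∈ F := fun c => Subfield.subset_closure (Or.inl ⟨c, rfl⟩)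
  have hF2 : ∀ k, x k ∈ F := fun k => Subfield.subset_closure (Or.inr ⟨k, rfl⟩)
  have hFs : ∀ y ∈ F, star y ∈ F := by
    intro y hy
    induction hy using Subfield.closure_induction with
    | mem a ha =>
      rcases ha with ⟨c, rfl⟩ | ⟨k, rfl⟩
      · rw [hK]; exact hF1 c
      · rw [hxs]; exact hF2 _
    | one => rw [star_one]; exact one_mem F
    | add a b _ _ ha hb => rw [star_add]; exact add_mem ha hb
    | neg a _ ha => rw [star_neg]; exact neg_mem ha
    | inv a _ ha => rw [star_inv₀]; exact inv_mem ha
    | mul a b _ _ ha hb => rw [star_mul]; exact mul_mem hb ha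
  have hFe : ∀ l : Pc K (Ix J), ev x l ∈ F := by
    intro l
    induction l using Finsupp.induction_linear with
    | zero => simp
    | add f g hf hg => rw [map_add]; exact add_mem hf hg
    | single o c =>
      rw [ev_single, Algebra.smul_def]
      refine mul_mem (hF1 c) ?_
      cases o with
      | none => exact one_mem F
      | some k => exact hF2 k
  let _ : StarRing F :=
    { star := fun y => ⟨star y.1, hFs _ y.2⟩
      star_involutive := fun y => Subtype.ext (star_star _)
      star_mul := fun y z => Subtype.ext (star_mul _ _)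
      star_add := fun y z => Subtype.ext (star_add _ _) }
  let g : Bool → R →ₗ[K₀] Pc K (Ix J) :=
    fun b => e.constr K₀ fun j => Finsupp.single (some (j, b)) 1
  have hg : ∀ b r, ev x (g (!b) r) = star (ev x (g b r)) := by
    intro b r
    simp only [g, Module.Basis.constr_apply, Finsupp.sum, map_sum, star_sum]
    refine Finset.sum_congr rfl fun j _ => ?_
    rw [← algebraMap_smul K, ← algebraMap_smul K (e.repr r j), map_smul, map_smul,
      star_smul_of hK, ev_single, ev_single, one_smul, one_smul]
    congr 1
    exact (hxs (j, b)).symm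
  have hgc : ∀ b r j, g b r (some (j, true)) = if b then algebraMap K₀ K (e.repr r j) else 0 := by
    intro b r j
    simp only [g, Module.Basis.constr_apply, Finsupp.sum, Finsupp.finsetSum_apply,
      Finsupp.smul_apply, Finsupp.single_apply]
    cases b
    · refine Finset.sum_eq_zero fun i _ => ?_
      rw [if_neg, smul_zero]
      intro hh
      exact Bool.noConfusion (congrArg Prod.snd (Option.some.inj hh))
    · rw [Finset.sum_eq_single j]
      · simp [Algebra.algebraMap_eq_smul_one]
      · intro i _ hi
        rw [if_neg, smul_zero]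
        intro hh
        exact hi (congrArg Prod.fst (Option.some.inj hh))
      · intro hj
        rw [Finsupp.notMem_support_iff.1 hj, zero_smul]
  let fP : R → Pc K (Ix J) := fun r => g true r + g false (star r)
  have hfP : ∀ r, ev x (fP (star r)) = star (ev x (fP r)) := by
    intro r
    simp only [fP, map_add, star_add, star_star]
    rw [← hg true r, ← hg false (star r), add_comm]
    rfl
  let f : R →+ F :=
    { toFun := fun r => ⟨ev x (fP r), hFe _⟩
      map_zero' := Subtype.ext (by simp [fP])
      map_add' := fun r s => Subtype.ext (by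
        simp only [fP, map_add, star_add, Subfield.coe_add]
        abel) }
  let κ : K₀ →+* F := ((algebraMap K E).comp (algebraMap K₀ K)).codRestrict F fun c => hF1 _
  refine holds_of_rep hR e κ ?_ f ?_ ?_ ?_ h
  · intro c y
    exact Subtype.ext (Algebra.commutes (algebraMap K₀ K c) y.1)
  · intro c r
    apply Subtype.ext
    show ev x (fP (c • r)) = algebraMap K E (algebraMap K₀ K c) * ev x (fP r)
    rw [← Algebra.smul_def, ← map_smul, algebraMap_smul]
    simp only [fP, hs, map_smul, smul_add]
  · intro r
    exact Subtype.ext (hfP r)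
  · intro S v hv
    have h1 := aniso hx hK bar hbar (Matrix.of fun a b : S => fP (star (e a) * e b)) (by
      intro a b
      simp only [Matrix.of_apply, ← hfP, star_mul, star_star]) (by
      intro w hw
      apply hiso S w
      intro j
      have := hw (some (j, true))
      simpa only [Matrix.of_apply, fP, Finsupp.add_apply, hgc, if_true, Bool.false_eq_true,
        if_false, add_zero] using this) (fun a => (v a).1) (fun a => (v a).2) (by
      have := congrArg F.subtype hv
      simp only [map_sum, map_mul, map_zero] at this
      exact this)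
    funext a
    exact Subtype.ext (congrFun h1 a)

theorem holds_of_algebra {K R : Type u} [Field K] [Ring R] [StarRing R] [Algebra K R]
    (hR : IsStarRegular R) (hs : ∀ (c : K) (r : R), star (c • r) = c • star r) {s t : Tm}
    (h : ∀ (A : Type u) [Ring A] [StarRing A], IsStarRegular A → IsArtinianRing A →
      IsArtinianRing Aᵐᵒᵖ → Holds A s t) : Holds R s t := by
  let e := Module.Basis.ofVectorSpace K R
  have : Infinite (RatFunc K) :=
    Infinite.of_injective _ (IsFractionRing.injective (Polynomial K) (RatFunc K))
  refine holds_of_generic hR hs e (xE (RatFunc K)) xE_generic EE_star_alg xE_star ?_ h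
  intro S v hv
  exact iso_rat hR.2 hs e (fun p : S => e p)
    (e.linearIndependent.comp _ Subtype.val_injective) v hv

end Pool.Agent.H556Z.SR
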