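import Mathlib

/-! Linear algebra over division rings. -/

namespace Pool.Agent.H556Z.SR

open Matrix

section
variable {D : Type*} [DivisionRing D]

theorem surj_of_inj {r t : Type*} [Fintype r] [Fintype t] (N : Matrix t r D)
    (hc : Fintype.card t ≤ Fintype.card r) (hN : ∀ y, N *ᵥ y = 0 → y = 0) (c : t → D) :
    ∃ y, N *ᵥ y = c := by
  let f : (r → Dᵐᵒᵖ) →ₗ[Dᵐᵒᵖ] (t → Dᵐᵒᵖ) :=
    { toFun := fun y i => MulOpposite.op ((N *ᵥ fun j => (y j).unop) i)
      map_add' := by
        intro y z
        funext i
        simp [mulVec, dotProduct, mul_add, Finset.sum_add_distrib]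
      map_smul' := by
        intro a y
        funext i
        simp [mulVec, dotProduct, Finset.mul_sum, mul_assoc] }
  have hf : Function.Injective f := by
    rw [injective_iff_map_eq_zero]
    intro y hy
    have := hN (fun j => (y j).unop) (by
      funext i
      have := congrFun hy i
      simpa [f] using this)
    funext j
    simpa using congrFun this j
  have h1 : Module.finrank Dᵐᵒᵖ (r → Dᵐᵒᵖ) = Module.finrank Dᵐᵒᵖ (t → Dᵐᵒᵖ) := by
    apply le_antisymm (LinearMap.finrank_le_finrank_of_injective hf)
    simpa using hc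
  have hs := (LinearMap.injective_iff_surjective_of_finrank_eq_finrank h1).1 hf
  obtain ⟨y, hy⟩ := hs (fun i => MulOpposite.op (c i))
  refine ⟨fun j => (y j).unop, ?_⟩
  funext i
  have := congrFun hy i
  simpa [f] using this

theorem inv_of_inj {r : Type*} [Fintype r] [DecidableEq r] (N : Matrix r r D)
    (hN : ∀ y, N *ᵥ y = 0 → y = 0) : ∃ G : Matrix r r D, N * G = 1 ∧ G * N = 1 := by
  choose y hy using fun j : r => surj_of_inj N le_rfl hN (Pi.single j 1)
  have h1 : N * (Matrix.of fun i j => y j i) = 1 := by
    ext i j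
    have := congrFun (hy j) i
    rw [Matrix.mul_apply, Matrix.one_apply]
    simp only [mulVec, dotProduct, Pi.single_apply] at this
    simpa using this
  refine ⟨_, h1, ?_⟩
  have h2 : N * ((Matrix.of fun i j => y j i) * N - 1) = 0 := by
    rw [Matrix.mul_sub, ← Matrix.mul_assoc, h1]; simp
  rw [← sub_eq_zero]
  ext i j
  have := hN (fun i => ((Matrix.of fun i j => y j i) * N - 1) i j) (by
    funext k
    have := congrFun (congrFun h2 k) j
    rw [Matrix.mul_apply] at this
    exact this)
  exact congrFun this i

theorem exists_rows {m n : Type} [Fintype m] [Fintype n] (N : Matrix m n D)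
    (hN : ∀ y, N *ᵥ y = 0 → y = 0) :
    ∃ e : n → m, ∀ y, (N.submatrix e id) *ᵥ y = 0 → y = 0 := by
  classical
  have key : ∀ {k : Type} (a : k → m) (y : n → D), (∀ i, N (a i) ⬝ᵥ y = 0) →
      ∀ z ∈ Submodule.span D (Set.range (fun i => N (a i))), z ⬝ᵥ y = 0 := by
    intro k a y h z hz
    induction hz using Submodule.span_induction with
    | mem z hz => obtain ⟨i, rfl⟩ := hz; exact h i
    | zero => simp
    | add z w _ _ h1 h2 => rw [add_dotProduct, h1, h2, add_zero]
    | smul c z _ h1 => rw [smul_dotProduct, h1, smul_zero]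
  have htop : Submodule.span D (Set.range (fun i => N i)) = ⊤ := by
    by_contra hne
    obtain ⟨f, hf0, hf⟩ := Submodule.exists_le_ker_of_lt_top _ (lt_top_iff_ne_top.2 hne)
    have hform : ∀ z : n → D, f z = z ⬝ᵥ fun j => f (Pi.single j 1) := by
      intro z
      conv_lhs => rw [pi_eq_sum_univ' z]
      simp [dotProduct, map_sum]
    have := hN (fun j => f (Pi.single j 1)) (by
      funext i
      have h1 : f (N i) = 0 := hf (Submodule.subset_span ⟨i, rfl⟩)
      rw [hform] at h1
      exact h1)
    apply hf0
    ext j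
    simpa using congrFun this j
  obtain ⟨κ, a, ha, hsp, hli⟩ := exists_linearIndependent' D (fun i => N i)
  have : Finite κ := Finite.of_injective a ha
  have : Fintype κ := Fintype.ofFinite κ
  let b : Module.Basis κ D (n → D) := Module.Basis.mk hli (by rw [hsp, htop])
  have hcard : Fintype.card n = Fintype.card κ := by
    rw [← Module.finrank_eq_card_basis b]; simp
  let e := Fintype.equivOfCardEq hcard
  refine ⟨fun j => a (e j), ?_⟩
  intro y hy
  have h1 : ∀ i, N (a i) ⬝ᵥ y = 0 := by
    intro i
    have := congrFun hy (e.symm i)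
    simpa [mulVec, Matrix.submatrix] using this
  funext j
  have := key a y h1 (Pi.single j 1) (by
    have h2 : (fun i => N (a i)) = (fun i => N i) ∘ a := rfl
    rw [h2, hsp, htop]; trivial)
  simpa using this

end

theorem subMat {K : Type*} [Field K] {ι : Type*} [Fintype ι] (W : Submodule K (ι → K)) :
    ∃ (Z : Matrix ι (Fin (Module.finrank K W)) K) (R : Matrix (Fin (Module.finrank K W)) ι K),
      R * Z = 1 ∧ (∀ k, (fun i => Z i k) ∈ W) ∧ ∀ z ∈ W, Z *ᵥ (R *ᵥ z) = z := by
  classical
  let b := Module.finBasis K W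
  obtain ⟨g, hg⟩ := LinearMap.exists_leftInverse_of_injective W.subtype W.ker_subtype
  have hg' : ∀ w : W, g w = w := fun w => LinearMap.congr_fun hg w
  let R : Matrix (Fin (Module.finrank K W)) ι K :=
    Matrix.of fun k i => b.repr (g (Pi.single i 1)) k
  have hR : ∀ z, R *ᵥ z = b.repr (g z) := by
    intro z
    funext k
    conv_rhs => rw [pi_eq_sum_univ' z]
    simp [R, mulVec, dotProduct, map_sum, mul_comm]
  refine ⟨Matrix.of fun i k => (b k : ι → K) i, R, ?_, fun k => (b k).2, ?_⟩
  · ext k l
    have := congrFun (hR (b l)) k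
    rw [hg', b.repr_self] at this
    rw [Matrix.mul_apply, Matrix.one_apply]
    simp only [mulVec, dotProduct, Finsupp.single_apply] at this
    simpa [eq_comm] using this
  · intro z hz
    rw [hR, hg' ⟨z, hz⟩]
    funext i
    have := congrFun (congrArg Subtype.val (b.sum_repr ⟨z, hz⟩)) i
    simp only [AddSubmonoidClass.coe_finsetSum, SetLike.val_smul, Finset.sum_apply,
      Pi.smul_apply, smul_eq_mul] at this
    simp only [mulVec, dotProduct, Matrix.of_apply]
    rw [← this]
    exact Finset.sum_congr rfl fun k _ => mul_comm _ _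

end Pool.Agent.H556Z.SR
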