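import Pool.Agent.H556Z.Pen
import Pool.Agent.H556Z.Lin

/-! The core anisotropy argument. -/

namespace Pool.Agent.H556Z.SR

open Matrix

theorem dim_lemma {K : Type*} [Field K] {V : Type*} [AddCommGroup V] [Module K V] {ι : Type*}
    [Fintype ι] (f g : V →ₗ[K] (ι → K)) (hf : Function.Surjective f) :
    ∃ W : Submodule K (ι → K), (∀ z, (∀ ψ, g ψ ⬝ᵥ z = 0) → z ∈ W) ∧
      Module.finrank K W ≤ Module.finrank K ((LinearMap.ker g).map f) := by
  classical
  let g' : V →ₗ[K] Module.Dual K (ι → K) := (dotProductEquiv K ι).toLinearMap ∘ₗ g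
  refine ⟨(LinearMap.range g').dualCoannihilator, ?_, ?_⟩
  · intro z hz
    rw [Submodule.mem_dualCoannihilator]
    rintro _ ⟨ψ, rfl⟩
    simpa [g'] using hz ψ
  · have h1 := Subspace.finrank_add_finrank_dualCoannihilator_eq (LinearMap.range g')
    have h2 := Submodule.finrank_quotient_add_finrank ((LinearMap.ker g).map f)
    have hk : LinearMap.ker g' ≤ LinearMap.ker (((LinearMap.ker g).map f).mkQ ∘ₗ f) := by
      intro ψ hψ
      rw [LinearMap.mem_ker] at hψ ⊢
      have : g ψ = 0 := by simpa [g'] using hψ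
      rw [LinearMap.comp_apply, Submodule.mkQ_apply, Submodule.Quotient.mk_eq_zero]
      exact Submodule.mem_map_of_mem this
    have h3 : Module.finrank K ((ι → K) ⧸ (LinearMap.ker g).map f) ≤
        Module.finrank K (LinearMap.range g') := by
      apply LinearMap.finrank_le_finrank_of_surjective
        (f := (LinearMap.ker g').liftQ _ hk ∘ₗ g'.quotKerEquivRange.symm.toLinearMap)
      intro z
      obtain ⟨z, rfl⟩ := Submodule.mkQ_surjective _ z
      obtain ⟨ψ, rfl⟩ := hf z
      refine ⟨g'.quotKerEquivRange (Submodule.Quotient.mk ψ), ?_⟩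
      simp
    omega

variable {K : Type*} [Field K] {I : Type*} {E : Type*} [DivisionRing E] [StarRing E] [Algebra K E]
  {x : I → E}

theorem star_smul_of (hK : ∀ c : K, star (algebraMap K E c) = algebraMap K E c) (c : K) (y : E) :
    star (c • y) = c • star y := by
  rw [Algebra.smul_def, star_mul, hK, Algebra.smul_def, Algebra.commutes]

omit [StarRing E] in
theorem exists_functional {ι : Type*} [Fintype ι] {u : ι → E} (hli : LinearIndependent K u)
    (z : ι → K) : ∃ ψ : E →ₗ[K] K, ∀ i, ψ (u i) = z i := by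
  classical
  obtain ⟨g, hg⟩ := LinearMap.exists_leftInverse_of_injective (Fintype.linearCombination K u)
    (LinearMap.ker_eq_bot.2 hli.fintypeLinearCombination_injective)
  refine ⟨(dotProductEquiv K ι z) ∘ₗ g, fun i => ?_⟩
  have := LinearMap.congr_fun hg (Pi.single i 1)
  simp only [LinearMap.comp_apply, Fintype.linearCombination_apply_single, one_smul,
    LinearMap.id_apply] at this
  simp [this]

omit [StarRing E] in
theorem map_alg_mulVec {m n : Type*} [Fintype n] (Z : Matrix m n K) (y : n → E) (i : m) :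
    (Z.map (algebraMap K E) *ᵥ y) i = ∑ j, Z i j • y j := by
  simp [mulVec, dotProduct, Algebra.smul_def]

theorem aniso_core (hx : Generic K x) (hK : ∀ c : K, star (algebraMap K E c) = algebraMap K E c)
    (bar : Pc K I → Pc K I) (hbar : ∀ l, ev x (bar l) = star (ev x l))
    {ι : Type} [Fintype ι] [DecidableEq ι] (M : Matrix ι ι (Pc K I)) (Mi : Matrix ι ι E)
    (h1 : M.map (ev x) * Mi = 1) (h2 : Mi * M.map (ev x) = 1) (c : ι → K) (u : ι → E)
    (hu : ∀ i, u i = ∑ l, c l • Mi i l) (hli : LinearIndependent K u)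
    (G : Matrix ι ι (Pc K I)) (hG : (G.map (ev x))ᴴ = G.map (ev x))
    (h0 : ∑ i, ∑ j, star (u i) * ev x (G i j) * u j = 0)
    {S : Type*} (B : Matrix S ι K)
    (hB1 : ∀ v : ι → K, (∀ o, ∑ i, ∑ j, v i * G i j o * v j = 0) → B *ᵥ v = 0)
    (hB2 : ∀ v : ι → K, B *ᵥ v = 0 → ∀ (v' : ι → K) o, ∑ i, ∑ j, v' i * G i j o * v j = 0)
    (a : S) : ∑ i, B a i • u i = 0 := by
  classical
  let H : Matrix (ι ⊕ ι) (ι ⊕ ι) (Pc K I) := fromBlocks G (Matrix.of fun i j => bar (M j i)) M 0
  let Gi : Matrix (ι ⊕ ι) (ι ⊕ ι) E := fromBlocks 0 Mi Miᴴ (-(Miᴴ * G.map (ev x) * Mi))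
  let ct : ι ⊕ ι → K := Sum.elim 0 c
  have hH : H.map (ev x) = fromBlocks (G.map (ev x)) (M.map (ev x))ᴴ (M.map (ev x)) 0 := by
    ext (i | i) (j | j) <;> simp [H, hbar]
  have h3 : (M.map (ev x))ᴴ * Miᴴ = 1 := by rw [← conjTranspose_mul, h2, conjTranspose_one]
  have hHG : H.map (ev x) * Gi = 1 := by
    rw [hH, fromBlocks_multiply, ← fromBlocks_one]
    simp only [Matrix.mul_zero, Matrix.zero_mul, zero_add, add_zero, h3, h1, Matrix.mul_neg]
    rw [Matrix.mul_assoc Miᴴ, ← Matrix.mul_assoc (M.map (ev x))ᴴ, h3, Matrix.one_mul,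
      add_neg_cancel, neg_zero, add_zero]
  have hGi : Giᴴ = Gi := by
    simp only [Gi, fromBlocks_conjTranspose, conjTranspose_zero, conjTranspose_conjTranspose,
      conjTranspose_neg, conjTranspose_mul, hG, Matrix.mul_assoc]
  let q : ι ⊕ ι → E := fun j => ∑ l, ct l • Gi j l
  have hq1 : ∀ i, q (Sum.inl i) = u i := by
    intro i
    simp [q, ct, Gi, hu, Fintype.sum_sum_type]
  have hp : ∀ i, ∑ l, ct l • Gi l i = star (q i) := by
    intro i
    simp only [q, star_sum, star_smul_of hK]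
    refine Finset.sum_congr rfl fun l _ => ?_
    rw [← conjTranspose_apply, hGi]
  have hsu : ∀ i, star (u i) = ∑ l, c l • Miᴴ l i := by
    intro i
    simp only [hu, star_sum, star_smul_of hK, conjTranspose_apply]
  have hb : bil ct Gi ct = 0 := by
    have e : ∑ i, ∑ j, star (u i) * ev x (G i j) * u j =
        ∑ l, ∑ m, (c l * c m) • (Miᴴ * G.map (ev x) * Mi) l m := by
      simp only [hsu]
      simp only [hu, Matrix.mul_apply, Finset.sum_mul, Finset.mul_sum, Finset.smul_sum,
        smul_mul_assoc, mul_smul_comm, smul_smul, Matrix.map_apply]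
      calc ∑ i, ∑ j, ∑ m, ∑ l, (c m * c l) • (Miᴴ l i * ev x (G i j) * Mi j m)
          = ∑ j, ∑ i, ∑ l, ∑ m, (c l * c m) • (Miᴴ l i * ev x (G i j) * Mi j m) := by
            rw [Finset.sum_comm]
            refine Finset.sum_congr rfl fun j _ => Finset.sum_congr rfl fun i _ => ?_
            rw [Finset.sum_comm]
            simp only [mul_comm]
        _ = ∑ l, ∑ m, ∑ j, ∑ i, (c l * c m) • (Miᴴ l i * ev x (G i j) * Mi j m) := by
            rw [← Fintype.sum_prod_type', ← Fintype.sum_prod_type' (α₁ := ι) (α₂ := ι)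
              (f := fun l m => ∑ j, ∑ i, (c l * c m) • (Miᴴ l i * ev x (G i j) * Mi j m))]
            simp only [← Fintype.sum_prod_type' (α₁ := ι) (α₂ := ι)]
            exact Finset.sum_comm
    rw [h0] at e
    simp only [bil, Fintype.sum_sum_type, ct, Gi, Sum.elim_inl, Sum.elim_inr, Pi.zero_apply,
      zero_mul, mul_zero, zero_smul, Finset.sum_const_zero, zero_add, fromBlocks_apply₂₂,
      Matrix.neg_apply, smul_neg, Finset.sum_neg_distrib, ← e, neg_zero]
  let st : E →ₗ[K] E :=
    { toFun := star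
      map_add' := star_add
      map_smul' := fun c y => star_smul_of hK c y }
  have iso : ∀ (ψ' ψ : E →ₗ[K] K) o, ∑ i, ∑ j, ψ' (q i) * H i j o * ψ (q j) = 0 := by
    intro ψ' ψ o
    have := wd hx hHG hb (ψ' ∘ₗ st) ψ o
    simpa only [hp, LinearMap.comp_apply, st, LinearMap.coe_mk, AddHom.coe_mk, star_star]
      using this
  let f : (E →ₗ[K] K) →ₗ[K] (ι → K) := LinearMap.pi fun i => LinearMap.applyₗ (u i)
  let g : (E →ₗ[K] K) →ₗ[K] (ι → K) := LinearMap.pi fun i => LinearMap.applyₗ (q (Sum.inr i))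
  have hf : Function.Surjective f := by
    intro z
    obtain ⟨ψ, hψ⟩ := exists_functional hli z
    exact ⟨ψ, funext hψ⟩
  obtain ⟨W, hW, hdim⟩ := dim_lemma f g hf
  have hX : ∀ v ∈ (LinearMap.ker g).map f, B *ᵥ v = 0 ∧ ∀ o, (fun i => ∑ j, M i j o * v j) ∈ W := by
    rintro _ ⟨ψ, hψ, rfl⟩
    have hψ' : ∀ i, ψ (q (Sum.inr i)) = 0 := fun i => congrFun hψ i
    have e : ∀ (ψ' : E →ₗ[K] K) o, ∑ i, ∑ j, f ψ' i * G i j o * f ψ j +
        ∑ i, ∑ j, g ψ' i * M i j o * f ψ j = 0 := by
      intro ψ' o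
      have := iso ψ' ψ o
      simpa [Fintype.sum_sum_type, hψ', hq1, H, f, g] using this
    have hBv : B *ᵥ f ψ = 0 := by
      apply hB1
      intro o
      have := e ψ o
      have hg0 : g ψ = 0 := hψ
      simpa [hg0] using this
    refine ⟨hBv, fun o => hW _ fun ψ' => ?_⟩
    have := e ψ' o
    rw [hB2 _ hBv, zero_add] at this
    rw [← this, dotProduct]
    simp only [Finset.mul_sum, mul_assoc]
  have hcW : c ∈ W := by
    apply hW
    intro ψ
    have := congrArg ψ hb
    rw [bil_eq_right, map_sum, map_zero] at this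
    simpa [Fintype.sum_sum_type, ct, g, q, dotProduct, mul_comm] using this
  obtain ⟨Z, R, -, -, hZR⟩ := subMat W
  obtain ⟨V, V', hV1, hV2, -⟩ := subMat ((LinearMap.ker g).map f)
  let al := algebraMap K E
  have hN : Z.map al * (R.map al * M.map (ev x) * V.map al) = M.map (ev x) * V.map al := by
    ext i k
    have e1 : ∀ i, (M.map (ev x) * V.map al) i k = ev x (∑ j, V j k • M i j) := by
      intro i
      simp only [Matrix.mul_apply, Matrix.map_apply, map_sum, map_smul, al, Algebra.smul_def,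
        Algebra.commutes]
    rw [Matrix.mul_assoc, ← Matrix.mul_assoc, ← Matrix.map_mul, Matrix.mul_apply]
    simp only [e1, Matrix.map_apply, al, ← Algebra.smul_def, ← map_smul, ← map_sum]
    congr 1
    ext o
    have := congrFun (hZR _ ((hX _ (hV2 k)).2 o)) i
    rw [Matrix.mulVec_mulVec] at this
    simp only [Finsupp.finsetSum_apply, Finsupp.smul_apply, smul_eq_mul]
    simpa only [mulVec, dotProduct, mul_comm] using this
  have hinj : ∀ y, (R.map al * M.map (ev x) * V.map al) *ᵥ y = 0 → y = 0 := by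
    intro y hy
    have e1 : (V'.map al * Mi * (Z.map al * (R.map al * M.map (ev x) * V.map al))) = 1 := by
      rw [hN, Matrix.mul_assoc, ← Matrix.mul_assoc Mi, h2, Matrix.one_mul, ← Matrix.map_mul, hV1]
      simp
    rw [← Matrix.one_mulVec y, ← e1, ← Matrix.mulVec_mulVec _ (V'.map al * Mi),
      ← Matrix.mulVec_mulVec _ (Z.map al), hy]
    simp
  obtain ⟨y, hy⟩ := surj_of_inj _ (by simpa using hdim) hinj (R.map al *ᵥ fun i => al (c i))
  have e2 : Z.map al *ᵥ (R.map al *ᵥ fun i => al (c i)) = fun i => al (c i) := by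
    funext i
    have := congrFun (hZR c hcW) i
    rw [← this]
    simp [mulVec, dotProduct]
  have e3 : u = V.map al *ᵥ y := by
    have e4 : (M.map (ev x) * V.map al) *ᵥ y = fun i => al (c i) := by
      rw [← hN, ← Matrix.mulVec_mulVec, hy, e2]
    have e5 := congrArg (fun z => Mi *ᵥ z) e4
    simp only [Matrix.mulVec_mulVec, ← Matrix.mul_assoc, h2, Matrix.one_mul] at e5
    rw [e5]
    funext i
    simp only [hu, mulVec, dotProduct, al, Algebra.smul_def, Algebra.commutes]
  have e6 : B * V = 0 := by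
    ext s k
    exact congrFun (hX _ (hV2 k)).1 s
  rw [← map_alg_mulVec, e3, Matrix.mulVec_mulVec, ← Matrix.map_mul, e6]
  simp

end Pool.Agent.H556Z.SR
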