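import Mathlib

/-! Cyclic algebras as rings of matrices. -/

namespace Pool.Agent.H556Z.SR

open Matrix

variable {n : ℕ}

theorem fin_succ_val (a : Fin (n + 1)) : (a + 1).val = if a.val = n then 0 else a.val + 1 := by
  rw [Fin.val_add_one]
  by_cases h : a = Fin.last n
  · simp [h]
  · have : a.val ≠ n := fun h' => h (Fin.ext h')
    simp [h, this]

theorem fin_rev_succ (a : Fin (n + 1)) : Fin.rev (a + 1) + 1 = Fin.rev a := by
  apply Fin.ext
  have := a.2
  rw [fin_succ_val, Fin.val_rev, Fin.val_rev, fin_succ_val]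
  split_ifs <;> omega

theorem fin_rev_zero (a : Fin (n + 1)) : Fin.rev a = 0 ↔ a + 1 = 0 := by
  have := a.2
  rw [Fin.ext_iff, Fin.ext_iff, fin_succ_val, Fin.val_rev, Fin.val_zero]
  by_cases h : a.val = n
  · rw [if_pos h]; omega
  · rw [if_neg h]; omega

theorem fin_induct {p : Fin (n + 1) → Prop} (h0 : p 0) (h : ∀ a, p a → p (a + 1)) (a) : p a := by
  induction a using Fin.induction with
  | zero => exact h0
  | succ i ih => rw [← Fin.coeSucc_eq_succ]; exact h _ ih

section
variable {C : Type*} [CommRing C]

def wt (s : C) (b : Fin (n + 1)) : C := if b = 0 then s else 1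

def Ymat (s : C) : Matrix (Fin (n + 1)) (Fin (n + 1)) C :=
  Matrix.of fun a b => if b = a + 1 then wt s b else 0

def Rel (σ : C → C) (s : C) (N : Matrix (Fin (n + 1)) (Fin (n + 1)) C) : Prop :=
  ∀ a b, wt s (a + 1) * N (a + 1) (b + 1) = σ (N a b) * wt s (b + 1)

theorem rel_iff (σ : C → C) (s : C) (N : Matrix (Fin (n + 1)) (Fin (n + 1)) C) :
    Ymat s * N = N.map σ * Ymat s ↔ Rel σ s N := by
  have e1 : ∀ a b, (Ymat (n := n) s * N : Matrix _ _ C) a b = wt s (a + 1) * N (a + 1) b := by
    intro a b
    simp [Ymat, Matrix.mul_apply]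
  have e2 : ∀ a b, (N.map σ * Ymat (n := n) s : Matrix _ _ C) a (b + 1) = σ (N a b) * wt s (b + 1) := by
    intro a b
    simp [Ymat, Matrix.mul_apply]
  constructor
  · intro h a b
    rw [← e1, ← e2, h]
  · intro h
    ext a b
    obtain ⟨b, rfl⟩ : ∃ b', b = b' + 1 := ⟨b - 1, by simp⟩
    rw [e1, e2, h]

theorem wt_ne_zero [Nontrivial C] {s : C} (hs : s ≠ 0) (b : Fin (n + 1)) : wt s b ≠ 0 := by
  unfold wt
  split_ifs
  · exact hs
  · exact one_ne_zero

theorem map_wt {C' : Type*} [CommRing C'] {F : Type*} [FunLike F C C'] [OneHomClass F C C']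
    (f : F) (s : C) (b : Fin (n + 1)) : f (wt s b) = wt (f s) b := by
  unfold wt
  split_ifs
  · rfl
  · exact map_one f

end

open Polynomial in
theorem det_ne_zero_of_rel {C : Type*} [CommRing C] [IsDomain C] (σ : C →+* C)
    (hσ : Function.Injective σ) (N : Matrix (Fin (n + 1)) (Fin (n + 1)) C[X])
    (hN : Rel (Polynomial.map σ) X N) (h0 : N ≠ 0) : N.det ≠ 0 := by
  induction hm : ∑ a, ∑ b, (N a b).natDegree using Nat.strong_induction_on generalizing N with
  | _ m ih =>
  have hw : ∀ b : Fin (n + 1), wt (X : C[X]) b ≠ 0 := wt_ne_zero X_ne_zero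
  have hw1 : ∀ b : Fin (n + 1), b ≠ 0 → wt (X : C[X]) b = 1 := fun b hb => if_neg hb
  have hw0 : wt (X : C[X]) (0 : Fin (n + 1)) = X := if_pos rfl
  have F1 : ∀ a, a ≠ 0 → X ∣ N a 0 := by
    intro a ha
    have := hN (a - 1) (-1)
    rw [sub_add_cancel, neg_add_cancel, hw1 a ha, one_mul, hw0] at this
    rw [this]
    exact dvd_mul_left _ _
  by_cases hc : (N 0 0).coeff 0 = 0
  · have F0 : ∀ a, X ∣ N a 0 := by
      intro a
      by_cases ha : a = 0
      · rw [ha]; exact X_dvd_iff.2 hc
      · exact F1 a ha
    choose r hr using F0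
    let N' : Matrix (Fin (n + 1)) (Fin (n + 1)) C[X] :=
      Matrix.of fun a b => if b + 1 = 0 then r a else N a (b + 1)
    have e : ∀ a b, N' a b * wt X (b + 1) = N a (b + 1) := by
      intro a b
      by_cases hb : b + 1 = 0
      · simp only [N', Matrix.of_apply, hb, if_true, hw0, hr a, mul_comm]
      · simp only [N', Matrix.of_apply, hb, if_false, hw1 _ hb, mul_one]
    have hN' : Rel (Polynomial.map σ) X N' := by
      intro a b
      apply mul_right_cancel₀ (hw (b + 1 + 1))
      have h1 := hN a (b + 1)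
      have h2 := congrArg (Polynomial.mapRingHom σ) (e a b)
      rw [map_mul, map_wt] at h2
      simp only [coe_mapRingHom, map_X] at h2
      rw [mul_assoc, e, h1, h2]
    have hcol : ∃ a, N a 0 ≠ 0 := by
      by_contra hall
      push Not at hall
      apply h0
      ext1 a b
      induction b using fin_induct generalizing a with
      | h0 => exact hall a
      | h b ihb =>
        have := hN (a - 1) b
        rw [ihb, sub_add_cancel] at this
        simpa [hw] using this
    obtain ⟨a0, ha0⟩ := hcol
    have hr0 : r a0 ≠ 0 := fun h => ha0 (by rw [hr, h, mul_zero])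
    have hN0 : N' ≠ 0 := by
      intro h
      apply hr0
      have := congrFun (congrFun h a0) (-1)
      simpa [N'] using this
    have hle : ∀ a b, (N' a b).natDegree ≤ (N a (b + 1)).natDegree := by
      intro a b
      rw [← e]
      by_cases h : N' a b = 0
      · simp [h]
      · rw [natDegree_mul h (hw _)]
        omega
    have hlt : ∑ a, ∑ b, (N' a b).natDegree < m := by
      rw [← hm]
      have e2 : ∀ a, ∑ b, (N a b).natDegree = ∑ b, (N a (b + 1)).natDegree :=
        fun a => (Equiv.sum_comp (Equiv.addRight 1) fun b => (N a b).natDegree).symm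
      simp only [e2]
      refine Finset.sum_lt_sum (fun a _ => Finset.sum_le_sum fun b _ => hle a b)
        ⟨a0, Finset.mem_univ _, Finset.sum_lt_sum (fun b _ => hle a0 b)
          ⟨-1, Finset.mem_univ _, ?_⟩⟩
      simp only [N', Matrix.of_apply, neg_add_cancel, if_true]
      rw [hr a0, natDegree_mul X_ne_zero hr0, natDegree_X]
      omega
    have hd := ih _ hlt N' hN' hN0 rfl
    have e3 : N.submatrix id (Equiv.addRight (1 : Fin (n + 1))) =
        N' * Matrix.diagonal fun b => wt X (b + 1) := by
      ext1 a b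
      rw [Matrix.mul_diagonal, e]
      rfl
    have e4 := Matrix.det_permute' (Equiv.addRight (1 : Fin (n + 1))) N
    rw [e3, Matrix.det_mul, Matrix.det_diagonal] at e4
    intro h
    rw [h, mul_zero] at e4
    exact mul_ne_zero hd (Finset.prod_ne_zero_iff.2 fun b _ => hw _) e4
  · have F2 : ∀ b a, b < a → X ∣ N a b := by
      intro b
      induction b using Fin.induction with
      | zero => intro a ha; exact F1 a ha.ne'
      | succ b ihb =>
        intro a ha
        have ha0 : a ≠ 0 := (lt_of_le_of_lt (Fin.zero_le _) ha).ne'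
        obtain ⟨a, rfl⟩ := Fin.exists_succ_eq.2 ha0
        have := hN a.castSucc b.castSucc
        rw [Fin.coeSucc_eq_succ, Fin.coeSucc_eq_succ, hw1 _ (Fin.succ_ne_zero a),
          hw1 _ (Fin.succ_ne_zero b), one_mul, mul_one] at this
        rw [this]
        have h2 := Polynomial.map_dvd σ (ihb a.castSucc (by simpa using ha))
        rwa [map_X] at h2
    have F3 : ∀ a, (N a a).coeff 0 ≠ 0 := by
      intro a
      induction a using fin_induct with
      | h0 => exact hc
      | h a iha =>
        have := hN a a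
        rw [mul_comm] at this
        rw [mul_right_cancel₀ (hw _) this, coeff_map]
        exact fun h => iha (hσ (by rw [h, map_zero]))
    intro h
    have h1 := congrArg (constantCoeff (R := C)) h
    rw [RingHom.map_det, map_zero, Matrix.det_of_isUpperTriangular] at h1
    · exact Finset.prod_ne_zero_iff.2 (fun a _ => F3 a) h1
    · intro a b hab
      exact X_dvd_iff.1 (F2 b a hab)

end Pool.Agent.H556Z.SR
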