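import Mathlib

/-!
Star-regular rings as structures in the signature `(+, -, ·, 0, 1, *, ⁺)`.
-/

namespace Pool.Agent.H556Z.SR

/-- A ring with involution is star-regular if it is von Neumann regular and the involution is
proper. -/
def IsStarRegular (R : Type*) [Ring R] [StarRing R] : Prop :=
  (∀ a : R, ∃ x : R, a * x * a = a) ∧ ∀ x : R, star x * x = 0 → x = 0

/-- `b` is a Moore-Penrose inverse of `a`. -/
def IsMP {R : Type*} [Ring R] [StarRing R] (a b : R) : Prop :=
  a * b * a = a ∧ b * a * b = b ∧ star (a * b) = a * b ∧ star (b * a) = b * a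

/-- Terms in the variables `x₀, x₁, …` of the signature `(+, -, ·, 0, 1, *, ⁺)`. -/
inductive Tm : Type
  | var : ℕ → Tm
  | zero : Tm
  | one : Tm
  | add : Tm → Tm → Tm
  | neg : Tm → Tm
  | mul : Tm → Tm → Tm
  | star : Tm → Tm
  | pinv : Tm → Tm

/-- The value of a term in a ring with involution, where `p` interprets the operation `⁺` and
`v` gives the values of the variables. -/
def Tm.eval {R : Type*} [Ring R] [StarRing R] (p : R → R) (v : ℕ → R) : Tm → R
  | Tm.var n => v n
  | Tm.zero => 0
  | Tm.one => 1
  | Tm.add s t => Tm.eval p v s + Tm.eval p v t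
  | Tm.neg s => - Tm.eval p v s
  | Tm.mul s t => Tm.eval p v s * Tm.eval p v t
  | Tm.star s => Star.star (Tm.eval p v s)
  | Tm.pinv s => p (Tm.eval p v s)

/-- The identity `s = t` holds in the ring with involution `R`, the operation `⁺` being the
Moore-Penrose inverse. -/
def Holds (R : Type*) [Ring R] [StarRing R] (s t : Tm) : Prop :=
  ∀ p : R → R, (∀ a, IsMP a (p a)) → ∀ v : ℕ → R, s.eval p v = t.eval p v

end Pool.Agent.H556Z.SR
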