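import Mathlib

/-! Linear pencils, generic points and the first order condition. -/

namespace Pool.Agent.H556Z.SR

open Matrix

/-- affine linear forms in the variables `I` -/
abbrev Pc (K : Type*) [Field K] (I : Type*) := Option I →₀ K

variable {K : Type*} [Field K] {I : Type*}

noncomputable def ev {A : Type*} [Ring A] [Algebra K A] (x : I → A) : Pc K I →ₗ[K] A :=
  Finsupp.linearCombination K (fun o : Option I => o.elim 1 x)

noncomputable def evL {N : Type*} [AddCommGroup N] [Module K N] (y : I → N) : Pc K I →ₗ[K] N :=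
  Finsupp.linearCombination K (fun o : Option I => o.elim 0 y)

@[simp] theorem ev_single {A : Type*} [Ring A] [Algebra K A] (x : I → A) (o : Option I) (c : K) :
    ev x (Finsupp.single o c) = c • o.elim 1 x := by
  simp [ev]

@[simp] theorem evL_single {N : Type*} [AddCommGroup N] [Module K N] (y : I → N) (o : Option I)
    (c : K) : evL y (Finsupp.single o c) = c • o.elim 0 y := by
  simp [evL]

theorem ev_map {A B : Type*} [Ring A] [Algebra K A] [Ring B] [Algebra K B] (φ : A →ₐ[K] B)
    (x : I → A) (l : Pc K I) : φ (ev x l) = ev (fun k => φ (x k)) l := by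
  induction l using Finsupp.induction_linear with
  | zero => simp
  | add f g hf hg => simp [hf, hg]
  | single o c => cases o <;> simp

def bil {s : Type*} [Fintype s] {A : Type*} [AddCommMonoid A] [Module K A] (b : s → K)
    (G : Matrix s s A) (c : s → K) : A := ∑ i, ∑ j, (b i * c j) • G i j

theorem bil_map {s : Type*} [Fintype s] {A B : Type*} [AddCommMonoid A] [Module K A]
    [AddCommMonoid B] [Module K B] (φ : A →ₗ[K] B) (b : s → K) (G : Matrix s s A) (c : s → K) :
    φ (bil b G c) = bil b (G.map φ) c := by
  simp [bil, map_sum]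

theorem bil_eq_right {s : Type*} [Fintype s] {A : Type*} [AddCommMonoid A] [Module K A]
    (b : s → K) (G : Matrix s s A) (c : s → K) :
    bil b G c = ∑ i, b i • ∑ l, c l • G i l := by
  simp [bil, Finset.smul_sum, mul_smul]

theorem bil_eq_left {s : Type*} [Fintype s] {A : Type*} [AddCommMonoid A] [Module K A]
    (b : s → K) (G : Matrix s s A) (c : s → K) :
    bil b G c = ∑ j, c j • ∑ l, b l • G l j := by
  rw [bil, Finset.sum_comm]
  simp [Finset.smul_sum, mul_smul, smul_comm (b _)]

/-- The point `x` is generic: a rational expression vanishes at `x` if and only if it vanishes at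
all matrix points over `K` where it is defined. -/
structure Generic (K : Type*) [Field K] {I : Type*} {E : Type*} [Ring E] [Algebra K E]
    (x : I → E) : Prop where
  t1 : ∀ (s : Type) [Fintype s] [DecidableEq s] (H : Matrix s s (Pc K I)) (G : Matrix s s E)
    (b c : s → K), H.map (ev x) * G = 1 → bil b G c ≠ 0 →
      ∃ (α : Type) (_ : Fintype α) (_ : DecidableEq α) (P : I → Matrix α α K)
        (G' : Matrix s s (Matrix α α K)),
        H.map (ev P) * G' = 1 ∧ G' * H.map (ev P) = 1 ∧ bil b G' c ≠ 0
  t2 : ∀ (s : Type) [Fintype s] [DecidableEq s] (H : Matrix s s (Pc K I)) (G : Matrix s s E)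
    (b c : s → K), H.map (ev x) * G = 1 → bil b G c = 0 →
      ∀ (α : Type) [Fintype α] [DecidableEq α] (P : I → Matrix α α K)
        (G' : Matrix s s (Matrix α α K)), H.map (ev P) * G' = 1 → bil b G' c = 0

theorem ev_block {α β : Type} [Fintype α] [DecidableEq α] [Fintype β] [DecidableEq β]
    (P' : I → Matrix α α K) (P : I → Matrix β β K) (Y : I → Matrix α β K) (l : Pc K I) :
    ev (fun k => fromBlocks (P' k) (Y k) 0 (P k)) l =
      fromBlocks (ev P' l) (evL Y l) 0 (ev P l) := by
  induction l using Finsupp.induction_linear with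
  | zero => simp
  | add f g hf hg => simp [hf, hg, fromBlocks_add]
  | single o c =>
    cases o with
    | none => simp [← fromBlocks_one, fromBlocks_smul]
    | some k => simp [fromBlocks_smul]

theorem fromBlocks_sum {s α β : Type} [Fintype s] (a : s → Matrix α α K) (b : s → Matrix α β K)
    (d : s → Matrix β β K) :
    ∑ l, fromBlocks (a l) (b l) 0 (d l) = fromBlocks (∑ l, a l) (∑ l, b l) 0 (∑ l, d l) := by
  ext (i | i) (j | j) <;> simp [Matrix.sum_apply]

variable {E : Type*} [Ring E] [Algebra K E] {x : I → E}

theorem pt_gen (hx : Generic K x) {s : Type} [Fintype s] [DecidableEq s]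
    {H : Matrix s s (Pc K I)} {G : Matrix s s E} {b c : s → K} (hG : H.map (ev x) * G = 1)
    (h0 : bil b G c = 0) {α β : Type} [Fintype α] [DecidableEq α] [Fintype β] [DecidableEq β]
    {P' : I → Matrix α α K} {G'' : Matrix s s (Matrix α α K)} (h' : H.map (ev P') * G'' = 1)
    {P : I → Matrix β β K} {G' : Matrix s s (Matrix β β K)} (h : H.map (ev P) * G' = 1)
    (Y : I → Matrix α β K) :
    ∑ i, ∑ j, (∑ l, b l • G'' l i) * evL Y (H i j) * (∑ l, c l • G' j l) = 0 := by
  let U : s → s → Matrix α β K := fun i j => ∑ l, ∑ m, G'' i l * evL Y (H l m) * G' m j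
  let GX : Matrix s s (Matrix (α ⊕ β) (α ⊕ β) K) :=
    Matrix.of fun i j => fromBlocks (G'' i j) (-U i j) 0 (G' i j)
  have e' : ∀ i j, ∑ l, ev P' (H i l) * G'' l j = if i = j then 1 else 0 := by
    intro i j
    have := congrFun (congrFun h' i) j
    rw [Matrix.mul_apply, Matrix.one_apply] at this
    exact this
  have e : ∀ i j, ∑ l, ev P (H i l) * G' l j = if i = j then 1 else 0 := by
    intro i j
    have := congrFun (congrFun h i) j
    rw [Matrix.mul_apply, Matrix.one_apply] at this
    exact this
  have hX : H.map (ev fun k => fromBlocks (P' k) (Y k) 0 (P k)) * GX = 1 := by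
    ext1 i j
    rw [Matrix.mul_apply, Matrix.one_apply]
    simp only [Matrix.map_apply, ev_block, GX, Matrix.of_apply, fromBlocks_multiply,
      Matrix.mul_zero, Matrix.zero_mul, add_zero, zero_add]
    rw [fromBlocks_sum, e', e]
    have hU : ∑ l, (ev P' (H i l) * -U l j + evL Y (H i l) * G' l j) = 0 := by
      rw [Finset.sum_add_distrib]
      have : ∑ l, ev P' (H i l) * U l j = ∑ m, evL Y (H i m) * G' m j := by
        calc ∑ l, ev P' (H i l) * U l j
            = ∑ l, ∑ a, ∑ m, ev P' (H i l) * G'' l a * (evL Y (H a m) * G' m j) := by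
              simp only [U, Matrix.mul_sum, Matrix.mul_assoc]
          _ = ∑ a, ∑ m, (∑ l, ev P' (H i l) * G'' l a) * (evL Y (H a m) * G' m j) := by
              rw [Finset.sum_comm]
              refine Finset.sum_congr rfl fun a _ => ?_
              rw [Finset.sum_comm]
              refine Finset.sum_congr rfl fun m _ => ?_
              rw [Matrix.sum_mul]
          _ = ∑ m, evL Y (H i m) * G' m j := by
              simp only [e']
              rw [Finset.sum_eq_single i]
              · simp
              · intro a _ ha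
                simp [Ne.symm ha]
              · simp
      simp only [Matrix.mul_neg, Finset.sum_neg_distrib, this, neg_add_cancel]
    rw [hU]
    split_ifs <;> simp
  have h1 := hx.t2 s H G b c hG h0 (α ⊕ β) _ GX hX
  have h2 : ∑ i, ∑ j, (b i * c j) • U i j = 0 := by
    ext a d
    have := congrFun (congrFun h1 (Sum.inl a)) (Sum.inr d)
    simp only [bil, GX, Matrix.sum_apply, Matrix.smul_apply, Matrix.of_apply,
      fromBlocks_apply₁₂, Matrix.neg_apply, smul_neg, Finset.sum_neg_distrib, Matrix.zero_apply,
      neg_eq_zero] at this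
    simpa only [Matrix.sum_apply, Matrix.smul_apply, Matrix.zero_apply] using this
  rw [← h2]
  simp only [U, Matrix.sum_mul, Matrix.mul_sum, Finset.smul_sum, Matrix.smul_mul,
    Matrix.mul_smul, smul_smul]
  calc ∑ i, ∑ j, ∑ m, ∑ l, (c m * b l) • (G'' l i * evL Y (H i j) * G' j m)
      = ∑ i, ∑ j, ∑ l, ∑ m, (b l * c m) • (G'' l i * evL Y (H i j) * G' j m) := by
        refine Finset.sum_congr rfl fun i _ => Finset.sum_congr rfl fun j _ => ?_
        rw [Finset.sum_comm]
        simp only [mul_comm]
    _ = ∑ l, ∑ m, ∑ i, ∑ j, (b l * c m) • (G'' l i * evL Y (H i j) * G' j m) := by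
        rw [← Fintype.sum_prod_type', ← Fintype.sum_prod_type' (α₁ := s) (α₂ := s)
          (f := fun l m => ∑ i, ∑ j, (b l * c m) • (G'' l i * evL Y (H i j) * G' j m))]
        simp only [← Fintype.sum_prod_type' (α₁ := s) (α₂ := s)]
        exact Finset.sum_comm

theorem evL_pi_single [DecidableEq I] {N : Type*} [AddCommGroup N] [Module K N] (k : I) (y : N)
    (l : Pc K I) : evL (Pi.single k y : I → N) l = l (some k) • y := by
  induction l using Finsupp.induction_linear with
  | zero => simp
  | add f g hf hg => simp [hf, hg, add_smul]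
  | single o c =>
    cases o with
    | none => simp
    | some j =>
      by_cases h : j = k
      · subst h; simp
      · simp [h]

theorem evL_mul {α β : Type} [Fintype α] [DecidableEq α] (P : I → Matrix α α K)
    (y : Matrix α β K) (l : Pc K I) :
    evL (fun k => P k * y) l = ev P l * y - l none • y := by
  induction l using Finsupp.induction_linear with
  | zero => simp
  | add f g hf hg => simp only [map_add, hf, hg, Matrix.add_mul, Finsupp.add_apply, add_smul]; abel
  | single o c =>
    cases o with
    | none => simp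
    | some j => simp

theorem pt_coef (hx : Generic K x) {s : Type} [Fintype s] [DecidableEq s]
    {H : Matrix s s (Pc K I)} {G : Matrix s s E} {b c : s → K} (hG : H.map (ev x) * G = 1)
    (h0 : bil b G c = 0) {α β : Type} [Fintype α] [DecidableEq α] [Fintype β] [DecidableEq β]
    {P' : I → Matrix α α K} {G'' : Matrix s s (Matrix α α K)} (h' : H.map (ev P') * G'' = 1)
    (h'' : G'' * H.map (ev P') = 1)
    {P : I → Matrix β β K} {G' : Matrix s s (Matrix β β K)} (h : H.map (ev P) * G' = 1)
    (y : Matrix α β K) (o : Option I) :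
    ∑ i, ∑ j, H i j o • ((∑ l, b l • G'' l i) * y * (∑ l, c l • G' j l)) = 0 := by
  classical
  cases o with
  | some k =>
    have := pt_gen hx hG h0 h' h (Pi.single k y)
    simpa only [evL_pi_single, Matrix.mul_smul, Matrix.smul_mul] using this
  | none =>
    have h1 := pt_gen hx hG h0 h' h (fun k => P' k * y)
    simp only [evL_mul, Matrix.mul_sub, Matrix.sub_mul, Finset.sum_sub_distrib,
      Matrix.mul_smul, Matrix.smul_mul] at h1
    rw [sub_eq_zero] at h1
    rw [← h1, Finset.sum_comm]
    have e : ∀ j, ∑ i, (∑ l, b l • G'' l i) * ev P' (H i j) = b j • 1 := by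
      intro j
      have e' : ∀ l, ∑ i, G'' l i * ev P' (H i j) = if l = j then 1 else 0 := by
        intro l
        have := congrFun (congrFun h'' l) j
        rw [Matrix.mul_apply, Matrix.one_apply] at this
        exact this
      simp only [Matrix.sum_mul, Matrix.smul_mul]
      rw [Finset.sum_comm]
      simp only [← Finset.smul_sum, e']
      rw [Finset.sum_eq_single j]
      · simp
      · intro a _ ha
        simp [ha]
      · simp
    have h2 := hx.t2 s H G b c hG h0 β P G' h
    rw [bil_eq_right] at h2
    calc ∑ j, ∑ i, (∑ l, b l • G'' l i) * (ev P' (H i j) * y) * ∑ l, c l • G' j l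
        = ∑ j, (∑ i, (∑ l, b l • G'' l i) * ev P' (H i j)) * y * ∑ l, c l • G' j l := by
          refine Finset.sum_congr rfl fun j _ => ?_
          rw [Matrix.sum_mul, Matrix.sum_mul]
          simp only [Matrix.mul_assoc]
      _ = y * ∑ j, b j • ∑ l, c l • G' j l := by
          rw [Matrix.mul_sum]
          refine Finset.sum_congr rfl fun j _ => ?_
          rw [e, Matrix.smul_mul, Matrix.one_mul, Matrix.smul_mul, Matrix.mul_smul]
      _ = 0 := by rw [h2, Matrix.mul_zero]

theorem pt_entry (hx : Generic K x) {s : Type} [Fintype s] [DecidableEq s]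
    {H : Matrix s s (Pc K I)} {G : Matrix s s E} {b c : s → K} (hG : H.map (ev x) * G = 1)
    (h0 : bil b G c = 0) {α β : Type} [Fintype α] [DecidableEq α] [Fintype β] [DecidableEq β]
    {P' : I → Matrix α α K} {G'' : Matrix s s (Matrix α α K)} (h' : H.map (ev P') * G'' = 1)
    (h'' : G'' * H.map (ev P') = 1)
    {P : I → Matrix β β K} {G' : Matrix s s (Matrix β β K)} (h : H.map (ev P) * G' = 1)
    (a a' : α) (d d' : β) (o : Option I) :
    ∑ i, ∑ j, (∑ l, b l • G'' l i) a a' * H i j o * (∑ l, c l • G' j l) d d' = 0 := by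
  have := congrFun (congrFun (pt_coef hx hG h0 h' h'' h (Matrix.single a' d 1) o) a) d'
  have e : ∀ (p : Matrix α α K) (q : Matrix β β K),
      (p * (Matrix.single a' d 1 : Matrix α β K) * q) a d' = p a a' * q d d' := by
    intro p q
    rw [Matrix.mul_assoc, Matrix.mul_apply, Finset.sum_eq_single a']
    · rw [Matrix.mul_apply, Finset.sum_eq_single d]
      · simp only [Matrix.single_apply_same, one_mul]
      · intro z _ hz
        simp [Ne.symm hz]
      · simp
    · intro z _ hz
      rw [Matrix.mul_apply]
      simp [Ne.symm hz]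
    · simp
  have e2 : ∀ (f : s → s → Matrix α β K), (∑ i, ∑ j, f i j) a d' = ∑ i, ∑ j, f i j a d' := by
    intro f
    simp only [Matrix.sum_apply]
  rw [e2, Matrix.zero_apply] at this
  rw [← this]
  refine Finset.sum_congr rfl fun i _ => Finset.sum_congr rfl fun j _ => ?_
  rw [Matrix.smul_apply, e, smul_eq_mul]
  ring

/-- The first order condition. -/
theorem wd (hx : Generic K x) {s : Type} [Fintype s] [DecidableEq s]
    {H : Matrix s s (Pc K I)} {G : Matrix s s E} {b c : s → K} (hG : H.map (ev x) * G = 1)
    (h0 : bil b G c = 0) (ψ' ψ : E →ₗ[K] K) (o : Option I) :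
    ∑ i, ∑ j, ψ' (∑ l, b l • G l i) * H i j o * ψ (∑ l, c l • G j l) = 0 := by
  have step1 : ∀ {α : Type} [Fintype α] [DecidableEq α]
      {P' : I → Matrix α α K} {G'' : Matrix s s (Matrix α α K)}, H.map (ev P') * G'' = 1 →
      G'' * H.map (ev P') = 1 → ∀ a a' : α,
      ∑ i, ∑ j, (∑ l, b l • G'' l i) a a' * H i j o * ψ (∑ l, c l • G j l) = 0 := by
    intro α _ _ P' G'' h' h'' a a'
    have hb : bil (fun j => ∑ i, (∑ l, b l • G'' l i) a a' * H i j o) G c = 0 := by
      by_contra hne
      obtain ⟨β, _, _, P, G', h, -, hne'⟩ := hx.t1 s H G _ c hG hne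
      apply hne'
      ext d d'
      have := pt_entry hx hG h0 h' h'' h a a' d d' o
      rw [Finset.sum_comm] at this
      rw [bil_eq_right, Matrix.sum_apply, Matrix.zero_apply, ← this]
      refine Finset.sum_congr rfl fun j _ => ?_
      rw [Matrix.smul_apply, smul_eq_mul, Finset.sum_mul]
    have := congrArg ψ hb
    rw [bil_eq_right, map_sum, map_zero] at this
    rw [Finset.sum_comm, ← this]
    refine Finset.sum_congr rfl fun j _ => ?_
    rw [map_smul, smul_eq_mul, Finset.sum_mul]
  have hb : bil b G (fun i => ∑ j, H i j o * ψ (∑ l, c l • G j l)) = 0 := by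
    by_contra hne
    obtain ⟨α, _, _, P', G'', h', h'', hne'⟩ := hx.t1 s H G b _ hG hne
    apply hne'
    ext a a'
    have := step1 h' h'' a a'
    rw [bil_eq_left, Matrix.sum_apply, Matrix.zero_apply, ← this]
    refine Finset.sum_congr rfl fun i _ => ?_
    rw [Matrix.smul_apply, smul_eq_mul, mul_comm, Finset.mul_sum]
    simp only [mul_assoc]
  have := congrArg ψ' hb
  rw [bil_eq_left, map_sum, map_zero] at this
  rw [← this]
  refine Finset.sum_congr rfl fun i _ => ?_
  rw [map_smul, smul_eq_mul, mul_comm, Finset.mul_sum]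
  simp only [mul_assoc]

end Pool.Agent.H556Z.SR
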