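import Pool.Agent.H556Z.Cyc
import Pool.Agent.H556Z.Pen

/-! Generic division algebras with involution. -/

namespace Pool.Agent.H556Z.SR

open Matrix

universe u

variable (K : Type u) [Field K] (I : Type u) (n : ℕ)

abbrev Vr := I × Fin (n + 1) × Fin (n + 1)
abbrev CC := Polynomial (MvPolynomial (Vr I n) K)
abbrev LL := FractionRing (CC K I n)

variable {K I n}

noncomputable def autC (e : Vr I n ≃ Vr I n) : CC K I n ≃ₐ[K] CC K I n :=
  Polynomial.mapAlgEquiv (MvPolynomial.renameEquiv K e)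

noncomputable def autL (e : Vr I n ≃ Vr I n) : LL K I n ≃ₐ[K] LL K I n :=
  IsFractionRing.algEquivOfAlgEquiv (autC e)

theorem autL_alg (e : Vr I n ≃ Vr I n) (c : CC K I n) :
    autL e (algebraMap (CC K I n) (LL K I n) c) = algebraMap _ _ (autC e c) :=
  IsFractionRing.algEquivOfAlgEquiv_algebraMap _ c

theorem autC_comp (e e' : Vr I n ≃ Vr I n) (c : CC K I n) :
    autC e (autC e' c) = autC (e'.trans e) c := by
  have := Polynomial.mapAlgEquiv_comp _ (MvPolynomial.renameEquiv K e')
    (MvPolynomial.renameEquiv K e)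
  rw [MvPolynomial.renameEquiv_trans] at this
  exact AlgEquiv.congr_fun this c

theorem autC_refl (c : CC K I n) : autC (Equiv.refl _) c = c := by
  simp [autC]

theorem autC_X (e : Vr I n ≃ Vr I n) : autC e (Polynomial.X : CC K I n) = Polynomial.X := by
  simp [autC]

theorem autC_var (e : Vr I n ≃ Vr I n) (v : Vr I n) :
    autC e (Polynomial.C (MvPolynomial.X v) : CC K I n) = Polynomial.C (MvPolynomial.X (e v)) := by
  simp [autC]

theorem autL_comp (e e' : Vr I n ≃ Vr I n) (y : LL K I n) :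
    autL e (autL e' y) = autL (e'.trans e) y := by
  obtain ⟨a, b, -, rfl⟩ := IsFractionRing.div_surjective (A := CC K I n) y
  simp only [map_div₀, autL_alg, autC_comp]

theorem autL_refl (y : LL K I n) : autL (Equiv.refl _) y = y := by
  obtain ⟨a, b, -, rfl⟩ := IsFractionRing.div_surjective (A := CC K I n) y
  simp only [map_div₀, autL_alg, autC_refl]

def sh (t : Fin (n + 1)) : Vr I n ≃ Vr I n :=
  (Equiv.refl I).prodCongr ((Equiv.addRight t).prodCongr (Equiv.addRight t))

theorem sh_apply (t : Fin (n + 1)) (k : I) (a b : Fin (n + 1)) :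
    sh t (k, a, b) = (k, a + t, b + t) := rfl

theorem sh_trans (t t' : Fin (n + 1)) : (sh t : Vr I n ≃ Vr I n).trans (sh t') = sh (t + t') := by
  ext1 ⟨k, a, b⟩
  simp [sh_apply, add_assoc]

theorem sh_zero : (sh 0 : Vr I n ≃ Vr I n) = Equiv.refl _ := by
  ext1 ⟨k, a, b⟩
  simp [sh_apply]

variable (K I n) in
noncomputable def sL : LL K I n := algebraMap (CC K I n) (LL K I n) Polynomial.X

theorem autL_s (e : Vr I n ≃ Vr I n) : autL e (sL K I n) = sL K I n := by
  rw [sL, autL_alg, autC_X]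

theorem alg_inj : Function.Injective (algebraMap (CC K I n) (LL K I n)) :=
  IsFractionRing.injective _ _

theorem sL_ne : sL K I n ≠ 0 := by
  rw [sL, ne_eq, map_eq_zero_iff _ alg_inj]
  exact Polynomial.X_ne_zero

variable (K I n) in
/-- the generic cyclic algebra -/
noncomputable def DD : Subalgebra K (Matrix (Fin (n + 1)) (Fin (n + 1)) (LL K I n)) where
  carrier := {M | Ymat (sL K I n) * M = (autL (sh 1)).mapMatrix M * Ymat (sL K I n)}
  mul_mem' := by
    intro a b ha hb
    simp only [Set.mem_ofPred_eq] at *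
    rw [← mul_assoc, ha, mul_assoc, hb, map_mul, mul_assoc]
  add_mem' := by
    intro a b ha hb
    simp only [Set.mem_ofPred_eq] at *
    rw [mul_add, ha, hb, map_add, add_mul]
  algebraMap_mem' := by
    intro c
    simp only [Set.mem_ofPred_eq]
    rw [AlgEquiv.commutes, Algebra.commutes]

theorem mem_DD {M : Matrix (Fin (n + 1)) (Fin (n + 1)) (LL K I n)} :
    M ∈ DD K I n ↔ Rel (autL (sh 1)) (sL K I n) M := by
  rw [← rel_iff]
  rfl

theorem det_ne_zero_of_mem {M : Matrix (Fin (n + 1)) (Fin (n + 1)) (LL K I n)}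
    (hM : M ∈ DD K I n) (h0 : M ≠ 0) : M.det ≠ 0 := by
  classical
  rw [mem_DD] at hM
  obtain ⟨⟨q, hq⟩, hq'⟩ := IsLocalization.exist_integer_multiples_of_finite
    (nonZeroDivisors (CC K I n)) (fun p : Fin (n + 1) × Fin (n + 1) => M p.1 p.2)
  have hq0 : q ≠ 0 := nonZeroDivisors.ne_zero hq
  let Q : CC K I n := ∏ t, autC (sh t) q
  have hQ0 : Q ≠ 0 := Finset.prod_ne_zero_iff.2 fun t _ => by simpa using hq0
  have hQ : autC (sh 1) Q = Q := by
    simp only [Q, map_prod, autC_comp, sh_trans]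
    exact Equiv.prod_comp (Equiv.addRight 1) fun t => autC (sh t) q
  have hQq : q ∣ Q := by
    have := Finset.dvd_prod_of_mem (fun t => autC (sh t) q) (Finset.mem_univ (0 : Fin (n + 1)))
    rwa [sh_zero, autC_refl] at this
  obtain ⟨r, hr⟩ := hQq
  have hN : ∀ a b, ∃ c : CC K I n, algebraMap _ (LL K I n) c = algebraMap _ _ Q * M a b := by
    intro a b
    obtain ⟨c, hc⟩ := hq' (a, b)
    refine ⟨r * c, ?_⟩
    rw [map_mul, hc, hr, Algebra.smul_def, map_mul]
    ring
  choose N hN using hN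
  have hrel : Rel (Polynomial.map (MvPolynomial.renameEquiv K (sh 1 : Vr I n ≃ Vr I n) :
      MvPolynomial (Vr I n) K →+* MvPolynomial (Vr I n) K)) Polynomial.X (Matrix.of N) := by
    intro a b
    apply alg_inj
    have h1 := hM a b
    have h2 := congrArg (autL (sh 1)) (hN a b)
    rw [autL_alg, map_mul, autL_alg, hQ] at h2
    have h3 : Polynomial.map (MvPolynomial.renameEquiv K (sh 1 : Vr I n ≃ Vr I n) :
      MvPolynomial (Vr I n) K →+* MvPolynomial (Vr I n) K) (N a b) = autC (sh 1) (N a b) := rfl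
    simp only [Matrix.of_apply, map_mul, map_wt, hN, h3, h2]
    rw [mul_left_comm, mul_assoc]
    exact congrArg _ h1
  have hN0 : Matrix.of N ≠ 0 := by
    intro h
    apply h0
    ext1 a b
    have h1 := hN a b
    have h2 : N a b = 0 := congrFun (congrFun h a) b
    rw [h2, map_zero, eq_comm, mul_eq_zero, map_eq_zero_iff _ alg_inj] at h1
    exact h1.resolve_left hQ0
  have hd := det_ne_zero_of_rel _ (MvPolynomial.renameEquiv K _).injective _ hrel hN0
  intro h
  apply hd
  apply alg_inj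
  have e : (algebraMap (CC K I n) (LL K I n)).mapMatrix (Matrix.of N) =
      algebraMap (CC K I n) (LL K I n) Q • M := by
    ext1 a b
    simp [hN]
  rw [RingHom.map_det, e, Matrix.det_smul, h, mul_zero, map_zero]

theorem DD_isUnit (a : DD K I n) : IsUnit a ∨ a = 0 := by
  by_cases h0 : a = 0
  · exact Or.inr h0
  left
  have hd : IsUnit a.1.det :=
    (det_ne_zero_of_mem a.2 (fun h => h0 (Subtype.ext h))).isUnit
  have h1 := Matrix.mul_nonsing_inv _ hd
  have h2 := Matrix.nonsing_inv_mul _ hd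
  have hmem : a.1⁻¹ ∈ DD K I n := by
    have h3 : Ymat (sL K I n) * a.1 = (autL (sh 1)).mapMatrix a.1 * Ymat (sL K I n) := a.2
    show Ymat (sL K I n) * a.1⁻¹ = (autL (sh 1)).mapMatrix a.1⁻¹ * Ymat (sL K I n)
    calc Ymat (sL K I n) * a.1⁻¹
        = (autL (sh 1)).mapMatrix (a.1⁻¹ * a.1) * Ymat (sL K I n) * a.1⁻¹ := by
          rw [h2, map_one, one_mul]
      _ = (autL (sh 1)).mapMatrix a.1⁻¹ * (Ymat (sL K I n) * a.1) * a.1⁻¹ := by
          rw [h3, map_mul]; simp only [mul_assoc]
      _ = _ := by rw [mul_assoc, mul_assoc, h1, mul_one]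
  exact ⟨⟨a, ⟨_, hmem⟩, Subtype.ext h1, Subtype.ext h2⟩, rfl⟩

section star
variable [InvolutiveInv I]

def io : Vr I n ≃ Vr I n where
  toFun v := (v.1⁻¹, Fin.rev v.2.2, Fin.rev v.2.1)
  invFun v := (v.1⁻¹, Fin.rev v.2.2, Fin.rev v.2.1)
  left_inv v := by simp
  right_inv v := by simp

theorem io_io : (io : Vr I n ≃ Vr I n).trans io = Equiv.refl _ := by
  ext1 ⟨k, a, b⟩
  simp [io]

theorem sh_io_sh : ((sh 1 : Vr I n ≃ Vr I n).trans io).trans (sh 1) = io := by
  ext1 ⟨k, a, b⟩
  simp [io, sh_apply, fin_rev_succ]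

noncomputable def tw (M : Matrix (Fin (n + 1)) (Fin (n + 1)) (LL K I n)) :
    Matrix (Fin (n + 1)) (Fin (n + 1)) (LL K I n) :=
  Matrix.of fun a b => autL io (M (Fin.rev b) (Fin.rev a))

theorem tw_mem {M : Matrix (Fin (n + 1)) (Fin (n + 1)) (LL K I n)} (hM : M ∈ DD K I n) :
    tw M ∈ DD K I n := by
  rw [mem_DD] at *
  intro a b
  have h1 := congrArg (fun y => autL (sh 1) (autL io y)) (hM (Fin.rev (b + 1)) (Fin.rev (a + 1)))
  simp only [fin_rev_succ, map_mul, map_wt, autL_s] at h1
  rw [autL_comp _ _ (M (Fin.rev (b + 1)) _), autL_comp _ _ (M (Fin.rev (b + 1)) _),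
    sh_io_sh] at h1
  have hw : ∀ a : Fin (n + 1), wt (sL K I n) (Fin.rev a) = wt (sL K I n) (a + 1) := by
    intro a
    simp only [wt, fin_rev_zero]
  rw [hw, hw] at h1
  simp only [tw, Matrix.of_apply]
  rw [mul_comm, ← h1, mul_comm]

noncomputable instance : StarRing (DD K I n) where
  star a := ⟨tw a.1, tw_mem a.2⟩
  star_involutive a := by
    apply Subtype.ext
    ext1 i j
    simp [tw, autL_comp, io_io, autL_refl]
  star_mul a b := by
    apply Subtype.ext
    ext1 i j
    simp only [tw, MulMemClass.coe_mul, Matrix.of_apply, Matrix.mul_apply, map_sum, map_mul]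
    rw [← Equiv.sum_comp Fin.revPerm]
    simp [mul_comm]
  star_add a b := by
    apply Subtype.ext
    ext1 i j
    simp [tw]

theorem DD_star_val (a : DD K I n) : (star a).1 = tw a.1 := rfl

theorem DD_star_alg (c : K) : star (algebraMap K (DD K I n) c) = algebraMap K (DD K I n) c := by
  apply Subtype.ext
  ext1 i j
  rw [DD_star_val]
  by_cases h : i = j
  · simp [tw, Matrix.algebraMap_matrix_apply, h]
  · simp [tw, Matrix.algebraMap_matrix_apply, h, Ne.symm h]

end star

/-- the generic matrices -/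
noncomputable def XC (k : I) : Matrix (Fin (n + 1)) (Fin (n + 1)) (CC K I n) :=
  Matrix.of fun a b => Polynomial.C (MvPolynomial.X (k, a, b)) *
    if b < a then Polynomial.X else 1

theorem XC_mem (k : I) : (XC k).map (algebraMap (CC K I n) (LL K I n)) ∈ DD K I n := by
  rw [mem_DD]
  intro a b
  simp only [XC, Matrix.map_apply, Matrix.of_apply, autL_alg, sL, ← map_wt, ← map_mul]
  congr 1
  rw [map_mul, autC_var, sh_apply, apply_ite (autC (sh 1)), autC_X, map_one, mul_left_comm,
    mul_assoc]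
  congr 1
  have ha := a.2
  have hb := b.2
  simp only [wt, Fin.ext_iff, Fin.lt_def, fin_succ_val, Fin.val_zero]
  split_ifs <;> first | omega | contradiction | simp

variable (K) in
noncomputable def XD (n : ℕ) (k : I) : DD K I n := ⟨_, XC_mem k⟩

theorem XD_star [InvolutiveInv I] (k : I) : star (XD K n k) = XD K n k⁻¹ := by
  apply Subtype.ext
  ext1 a b
  rw [DD_star_val]
  simp only [tw, XD, XC, Matrix.of_apply, Matrix.map_apply, autL_alg, map_mul, autC_var,
    apply_ite (autC io), autC_X, map_one, Fin.rev_lt_rev]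
  simp [io]

end Pool.Agent.H556Z.SR
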