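import Pool.Agent.H556Z.Defs

/-! Moore-Penrose inverses in star-regular rings. -/

namespace Pool.Agent.H556Z.SR

section
variable {R : Type*} [Ring R] [StarRing R]

theorem IsMP.unique {a b c : R} (hb : IsMP a b) (hc : IsMP a c) : b = c := by
  obtain ⟨h1, h2, h3, h4⟩ := hb
  obtain ⟨k1, k2, k3, k4⟩ := hc
  have e1 : a * b = a * c := by
    calc a * b = star (a * b) := h3.symm
      _ = star (a * c * a * b) := by rw [k1]
      _ = star (a * b) * star (a * c) := by rw [← star_mul]; simp only [mul_assoc]
      _ = a * b * (a * c) := by rw [h3, k3]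
      _ = a * c := by rw [← mul_assoc, h1]
  have e2 : b * a = c * a := by
    calc b * a = star (b * a) := h4.symm
      _ = star (b * (a * c * a)) := by rw [k1]
      _ = star (c * a) * star (b * a) := by rw [← star_mul]; simp only [mul_assoc]
      _ = c * a * (b * a) := by rw [h4, k4]
      _ = c * (a * b * a) := by simp only [mul_assoc]
      _ = c * a := by rw [h1]
  calc b = b * a * b := h2.symm
    _ = c * a * b := by rw [e2]
    _ = c * (a * c) := by rw [mul_assoc, e1]
    _ = c := by rw [← mul_assoc, k2]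

theorem IsMP.star {a b : R} (h : IsMP a b) : IsMP (star a) (star b) := by
  obtain ⟨h1, h2, h3, h4⟩ := h
  refine ⟨?_, ?_, ?_, ?_⟩
  · rw [← star_mul, ← star_mul, ← mul_assoc, h1]
  · rw [← star_mul, ← star_mul, ← mul_assoc, h2]
  · rw [← star_mul, h4, h4]
  · rw [← star_mul, h3, h3]

theorem cancel_left (hp : ∀ x : R, star x * x = 0 → x = 0) {a y : R}
    (h : star a * a * y = 0) : a * y = 0 := by
  apply hp
  rw [star_mul, mul_assoc, ← mul_assoc (star a), h, mul_zero]

theorem cancel_right (hp : ∀ x : R, star x * x = 0 → x = 0) {a y : R}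
    (h : y * (a * star a) = 0) : y * a = 0 := by
  have : star (y * a) = 0 := by
    apply hp
    rw [star_star, star_mul, ← mul_assoc, mul_assoc y, h, zero_mul]
  simpa using congrArg Star.star this

/-- a formula for the Moore-Penrose inverse -/
theorem isMP_of_inner (hp : ∀ x : R, star x * x = 0 → x = 0) {a x y : R}
    (hx : star a * a * x * (star a * a) = star a * a)
    (hy : a * star a * y * (a * star a) = a * star a) :
    IsMP a (star a * y * a * (x * star a) * (a * x * star a)) := by
  have h1 : a * x * star a * a = a := by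
    have h2 : star a * a * (x * star a * a - 1) = 0 := by
      rw [mul_sub, mul_one, sub_eq_zero]; simpa only [mul_assoc] using hx
    have := cancel_left hp h2
    rw [mul_sub, mul_one, sub_eq_zero] at this
    simpa only [mul_assoc] using this
  have h2 : a * (star a * y * a) = a := by
    have h3 : (a * star a * y - 1) * (a * star a) = 0 := by
      rw [sub_mul, one_mul, sub_eq_zero]; exact hy
    have := cancel_right hp h3
    rw [sub_mul, one_mul, sub_eq_zero] at this
    simpa only [mul_assoc] using this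
  obtain ⟨p, hpd⟩ : ∃ p, p = a * x * star a := ⟨_, rfl⟩
  obtain ⟨q, hqd⟩ : ∃ q, q = star a * y * a := ⟨_, rfl⟩
  rw [← hpd] at h1
  rw [← hqd] at h2
  have hp1 : star a * star p = star a := by rw [← star_mul, h1]
  have hq1 : star q * star a = star a := by rw [← star_mul, h2]
  have hp2 : p * star p = p := by
    calc p * star p = a * x * (star a * star p) := by rw [hpd]; simp only [mul_assoc]
      _ = p := by rw [hp1, hpd]
  have hq2 : star q * q = q := by
    calc star q * q = star q * star a * y * a := by rw [hqd]; simp only [mul_assoc]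
      _ = q := by rw [hq1, hqd]
  have hps : star p = p := by
    have := congrArg Star.star hp2
    rw [star_mul, star_star, hp2] at this
    exact this.symm
  have hqs : star q = q := by
    have := congrArg Star.star hq2
    rw [star_mul, star_star, hq2] at this
    exact this.symm
  have hpp : p * p = p := by rw [hps] at hp2; exact hp2
  have hqq : q * q = q := by rw [hqs] at hq2; exact hq2
  rw [← hpd, ← hqd]
  have hab : a * (q * (x * star a) * p) = p := by
    calc a * (q * (x * star a) * p) = a * q * x * star a * p := by simp only [mul_assoc]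
      _ = p := by rw [h2, ← hpd, hpp]
  have hba : q * (x * star a) * p * a = q := by
    calc q * (x * star a) * p * a = q * (x * star a) * (p * a) := by simp only [mul_assoc]
      _ = star a * y * (a * x * star a * a) := by rw [h1, hqd]; simp only [mul_assoc]
      _ = q := by rw [← hpd, h1, hqd]
  refine ⟨?_, ?_, ?_, ?_⟩
  · rw [hab, h1]
  · rw [hba, ← mul_assoc, ← mul_assoc, hqq]
  · rw [hab, hps]
  · rw [hba, hqs]

theorem exists_mp (h : IsStarRegular R) : ∃ p : R → R, ∀ a, IsMP a (p a) := by
  have : ∀ a : R, ∃ b, IsMP a b := by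
    intro a
    obtain ⟨x, hx⟩ := h.1 (star a * a)
    obtain ⟨y, hy⟩ := h.1 (a * star a)
    exact ⟨_, isMP_of_inner h.2 hx hy⟩
  choose p hp using this
  exact ⟨p, hp⟩

end

/-- A relation between a star-regular ring `E` and a ring `R` with involution which presents `R`
as a homomorphic image of a subring of `E`. -/
structure GoodRel {E R : Type*} [Ring E] [StarRing E] [Ring R] [StarRing R]
    (ρ : E → R → Prop) : Prop where
  zero : ρ 0 0
  one : ρ 1 1
  add : ∀ {a b r s}, ρ a r → ρ b s → ρ (a + b) (r + s)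
  neg : ∀ {a r}, ρ a r → ρ (-a) (-r)
  mul : ∀ {a b r s}, ρ a r → ρ b s → ρ (a * b) (r * s)
  star : ∀ {a r}, ρ a r → ρ (star a) (star r)
  func : ∀ {r}, ρ 0 r → r = 0
  surj : ∀ r, ∃ a, ρ a r
  ker : ∀ {a b}, ρ a 0 → IsMP a b → ρ b 0

namespace GoodRel
variable {E R : Type*} [Ring E] [StarRing E] [Ring R] [StarRing R] {ρ : E → R → Prop}

theorem sub (h : GoodRel ρ) {a b : E} {r s : R} (h1 : ρ a r) (h2 : ρ b s) : ρ (a - b) (r - s) := by
  rw [sub_eq_add_neg, sub_eq_add_neg]; exact h.add h1 (h.neg h2)

theorem eq (h : GoodRel ρ) {a : E} {r s : R} (h1 : ρ a r) (h2 : ρ a s) : r = s := by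
  have := h.sub h1 h2
  rw [sub_self] at this
  exact sub_eq_zero.1 (h.func this)

theorem inner (h : GoodRel ρ) (hE : IsStarRegular E) (hR : IsStarRegular R) {a : E} {r : R}
    (h1 : ρ a r) : ∃ x s, ρ x s ∧ a * x * a = a := by
  obtain ⟨p, hp⟩ := exists_mp hE
  obtain ⟨y, hy⟩ := hR.1 r
  obtain ⟨b, hb⟩ := h.surj y
  have hj : ρ (a * b * a - a) 0 := by
    have := h.sub (h.mul (h.mul h1 hb) h1) h1
    rwa [hy, sub_self] at this
  have hj' := h.ker hj (hp _)
  refine ⟨b - (b * a - 1) * p (a * b * a - a) * (a * b - 1), _,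
    h.sub hb (h.mul (h.mul (h.sub (h.mul hb h1) h.one) hj') (h.sub (h.mul h1 hb) h.one)), ?_⟩
  have e := (hp (a * b * a - a)).1
  calc a * (b - (b * a - 1) * p (a * b * a - a) * (a * b - 1)) * a
      = a * b * a - (a * b * a - a) * p (a * b * a - a) * (a * b * a - a) := by noncomm_ring
    _ = a := by rw [e]; abel

theorem mp (h : GoodRel ρ) (hE : IsStarRegular E) (hR : IsStarRegular R) {a b : E} {r s : R}
    (h1 : ρ a r) (hb : IsMP a b) (hs : IsMP r s) : ρ b s := by
  obtain ⟨x, x', hx, ex⟩ := h.inner hE hR (h.mul (h.star h1) h1)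
  obtain ⟨y, y', hy, ey⟩ := h.inner hE hR (h.mul h1 (h.star h1))
  have hm := isMP_of_inner hE.2 ex ey
  have e := hb.unique hm
  have hr := h.mul (h.mul (h.mul (h.mul (h.star h1) hy) h1) (h.mul hx (h.star h1)))
    (h.mul (h.mul h1 hx) (h.star h1))
  rw [← e] at hr
  obtain ⟨s', hs'⟩ : ∃ s', ρ b s' := ⟨_, hr⟩
  have : IsMP r s' := by
    obtain ⟨e1, e2, e3, e4⟩ := hb
    refine ⟨?_, ?_, ?_, ?_⟩
    · have := h.mul (h.mul h1 hs') h1
      rw [e1] at this
      exact h.eq this h1
    · have := h.mul (h.mul hs' h1) hs'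
      rw [e2] at this
      exact h.eq this hs'
    · have := h.star (h.mul h1 hs')
      rw [e3] at this
      exact h.eq this (h.mul h1 hs')
    · have := h.star (h.mul hs' h1)
      rw [e4] at this
      exact h.eq this (h.mul hs' h1)
  rw [hs.unique this]
  exact hs'

theorem eval (h : GoodRel ρ) (hE : IsStarRegular E) (hR : IsStarRegular R) {p : E → E}
    (hp : ∀ a, IsMP a (p a)) {q : R → R} (hq : ∀ a, IsMP a (q a)) {v : ℕ → E} {w : ℕ → R}
    (hv : ∀ n, ρ (v n) (w n)) (t : Tm) : ρ (t.eval p v) (t.eval q w) := by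
  induction t with
  | var n => exact hv n
  | zero => exact h.zero
  | one => exact h.one
  | add s t hs ht => exact h.add hs ht
  | neg s hs => exact h.neg hs
  | mul s t hs ht => exact h.mul hs ht
  | star s hs => exact h.star hs
  | pinv s hs => exact h.mp hE hR hs (hp _) (hq _)

theorem holds (h : GoodRel ρ) (hE : IsStarRegular E) (hR : IsStarRegular R) {s t : Tm}
    (hst : Holds E s t) : Holds R s t := by
  intro q hq w
  obtain ⟨p, hp⟩ := exists_mp hE
  choose v hv using fun n => h.surj (w n)
  have h1 := h.eval hE hR hp hq hv s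
  rw [hst p hp v] at h1
  exact h.eq h1 (h.eval hE hR hp hq hv t)

end GoodRel

/-- homomorphisms commute with evaluation -/
theorem eval_hom {E R : Type*} [Ring E] [StarRing E] [Ring R] [StarRing R] (φ : E →+* R)
    (hφ : ∀ a, φ (star a) = star (φ a)) {p : E → E}
    (hp : ∀ a, IsMP a (p a)) {q : R → R} (hq : ∀ a, IsMP a (q a)) (v : ℕ → E) (t : Tm) :
    φ (t.eval p v) = t.eval q (fun n => φ (v n)) := by
  induction t with
  | var n => rfl
  | zero => exact map_zero φ
  | one => exact map_one φ
  | add s t hs ht => simp only [Tm.eval, map_add, hs, ht]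
  | neg s hs => simp only [Tm.eval, map_neg, hs]
  | mul s t hs ht => simp only [Tm.eval, map_mul, hs, ht]
  | star s hs => simp only [Tm.eval, hφ, hs]
  | pinv s hs =>
    simp only [Tm.eval, ← hs]
    obtain ⟨e1, e2, e3, e4⟩ := hp (s.eval p v)
    refine IsMP.unique ?_ (hq _)
    refine ⟨?_, ?_, ?_, ?_⟩
    · rw [← map_mul, ← map_mul, e1]
    · rw [← map_mul, ← map_mul, e2]
    · rw [← map_mul, ← hφ, e3]
    · rw [← map_mul, ← hφ, e4]

theorem pi_regular {ι : Type*} {A : ι → Type*} [∀ i, Ring (A i)] [∀ i, StarRing (A i)]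
    (h : ∀ i, IsStarRegular (A i)) : IsStarRegular (∀ i, A i) := by
  constructor
  · intro a
    choose x hx using fun i => (h i).1 (a i)
    exact ⟨x, funext hx⟩
  · intro x hx
    funext i
    exact (h i).2 (x i) (congrFun hx i)

theorem pi_holds {ι : Type*} {A : ι → Type*} [∀ i, Ring (A i)] [∀ i, StarRing (A i)]
    (h : ∀ i, IsStarRegular (A i)) {s t : Tm} (hst : ∀ i, Holds (A i) s t) :
    Holds (∀ i, A i) s t := by
  intro p hp v
  funext i
  obtain ⟨q, hq⟩ := exists_mp (h i)
  have h1 := eval_hom (Pi.evalRingHom A i) (fun _ => rfl) hp hq v s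
  have h2 := eval_hom (Pi.evalRingHom A i) (fun _ => rfl) hp hq v t
  rw [hst i q hq] at h1
  exact h1.trans h2.symm

end Pool.Agent.H556Z.SR
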