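import Pool.Agent.H556Z.Alg

/-! Reduction to algebras over a field. -/

namespace Pool.Agent.H556Z.SR

universe u

variable (R : Type u) [Ring R] [StarRing R]

/-- central hermitian elements -/
def ZZ : Subring R where
  carrier := {c | star c = c ∧ ∀ r, c * r = r * c}
  mul_mem' := by
    rintro a b ⟨h1, h2⟩ ⟨k1, k2⟩
    refine ⟨by rw [star_mul, h1, k1, h2], fun r => ?_⟩
    rw [mul_assoc, k2, ← mul_assoc, h2, mul_assoc]
  one_mem' := ⟨star_one R, fun r => by rw [one_mul, mul_one]⟩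
  add_mem' := by
    rintro a b ⟨h1, h2⟩ ⟨k1, k2⟩
    exact ⟨by rw [star_add, h1, k1], fun r => by rw [add_mul, mul_add, h2, k2]⟩
  zero_mem' := ⟨star_zero R, fun r => by rw [zero_mul, mul_zero]⟩
  neg_mem' := by
    rintro a ⟨h1, h2⟩
    exact ⟨by rw [star_neg, h1], fun r => by rw [neg_mul, mul_neg, h2]⟩

instance : CommRing (ZZ R) :=
  { (ZZ R).toRing with mul_comm := fun a b => Subtype.ext (a.2.2 b.1) }

variable {R}

theorem mp_mem {a b : R} (ha : a ∈ ZZ R) (h : IsMP a b) : b ∈ ZZ R := by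
  obtain ⟨h1, h2⟩ := ha
  have hs : star b = b := by
    have := h.star
    rw [h1] at this
    exact this.unique h
  obtain ⟨e1, e2, -, -⟩ := h
  have hc : ∀ r, a * b * r = r * (a * b) := by
    intro r
    calc a * b * r = b * (a * r) := by rw [h2 b, mul_assoc]
      _ = b * r * (a * b * a) := by rw [e1, h2 r, mul_assoc]
      _ = b * (r * a) * (b * a) := by simp only [mul_assoc]
      _ = a * b * (r * a) * b := by rw [← h2 r, ← h2 b, ← mul_assoc b, ← h2 b, h2 r]; simp only [mul_assoc]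
      _ = a * b * a * r * b := by rw [← h2 r]; simp only [mul_assoc]
      _ = r * (a * b) := by rw [e1, h2 r, mul_assoc]
  refine ⟨hs, fun r => ?_⟩
  calc b * r = b * (a * b * r) := by rw [← mul_assoc, ← mul_assoc, e2]
    _ = b * (a * r) * b := by rw [hc, h2 r]; simp only [mul_assoc]
    _ = a * b * r * b := by rw [← mul_assoc, ← h2 b]
    _ = r * (b * a * b) := by rw [hc, h2 b]; simp only [mul_assoc]
    _ = r * b := by rw [e2]

/-- the congruence attached to a prime ideal of the hermitian centre -/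
def loc (m : Ideal (ZZ R)) [hm : m.IsPrime] : RingCon R where
  r a b := ∃ c : ZZ R, c ∉ m ∧ c.1 * a = c.1 * b
  iseqv := ⟨fun _ => ⟨1, (Ideal.ne_top_iff_one m).1 hm.ne_top, rfl⟩,
    fun ⟨c, h1, h2⟩ => ⟨c, h1, h2.symm⟩,
    fun ⟨c, h1, h2⟩ ⟨d, k1, k2⟩ => ⟨c * d, fun h => (hm.mem_or_mem h).elim h1 k1, by
      rw [Subring.coe_mul, mul_assoc, mul_assoc, ← k2, ← mul_assoc, ← mul_assoc, c.2.2,
        mul_assoc, mul_assoc, h2]⟩⟩
  mul' := by
    rintro w x y z ⟨c, h1, h2⟩ ⟨d, k1, k2⟩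
    refine ⟨c * d, fun h => (hm.mem_or_mem h).elim h1 k1, ?_⟩
    rw [Subring.coe_mul]
    calc c.1 * d.1 * (w * y) = c.1 * w * (d.1 * y) := by
          rw [mul_assoc, ← mul_assoc d.1, d.2.2 w]; simp only [mul_assoc]
      _ = c.1 * x * (d.1 * z) := by rw [h2, k2]
      _ = c.1 * d.1 * (x * z) := by
          rw [mul_assoc c.1 d.1, ← mul_assoc d.1, d.2.2 x]; simp only [mul_assoc]
  add' := by
    rintro w x y z ⟨c, h1, h2⟩ ⟨d, k1, k2⟩
    refine ⟨c * d, fun h => (hm.mem_or_mem h).elim h1 k1, ?_⟩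
    rw [Subring.coe_mul, mul_add, mul_add, mul_assoc c.1 d.1 y, k2, c.2.2 d.1, mul_assoc d.1 c.1 w,
      h2, ← c.2.2 d.1]
    simp only [mul_assoc]
    rw [← mul_assoc d.1, ← c.2.2 d.1, mul_assoc]

/-- the quotient ring -/
def QQ (m : Ideal (ZZ R)) [m.IsPrime] : Type u := (loc m).Quotient

variable (m : Ideal (ZZ R)) [hm : m.IsMaximal]

instance : Ring (QQ m) := inferInstanceAs (Ring (loc m).Quotient)

def mkQ : R →+* QQ m := (loc m).mk'

theorem mkQ_surj : Function.Surjective (mkQ m) := RingCon.mk'_surjective _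

theorem mkQ_eq {a b : R} : mkQ m a = mkQ m b ↔ ∃ c : ZZ R, c ∉ m ∧ c.1 * a = c.1 * b :=
  RingCon.eq (loc m)

def starQ (a : QQ m) : QQ m :=
  Quotient.map' (s₁ := (loc m).toSetoid) (s₂ := (loc m).toSetoid) star
    (fun a b ⟨c, h1, h2⟩ => ⟨c, h1, by
      have := congrArg star h2
      rwa [star_mul, star_mul, c.2.1, ← c.2.2, ← c.2.2] at this⟩) a

theorem starQ_mk (a : R) : starQ m (mkQ m a) = mkQ m (star a) := rfl

instance : StarRing (QQ m) where
  star := starQ m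
  star_involutive a := by
    obtain ⟨a, rfl⟩ := mkQ_surj m a
    rw [starQ_mk, starQ_mk, star_star]
  star_mul a b := by
    obtain ⟨a, rfl⟩ := mkQ_surj m a
    obtain ⟨b, rfl⟩ := mkQ_surj m b
    rw [← map_mul, starQ_mk, starQ_mk, starQ_mk, star_mul, map_mul]
  star_add a b := by
    obtain ⟨a, rfl⟩ := mkQ_surj m a
    obtain ⟨b, rfl⟩ := mkQ_surj m b
    rw [← map_add, starQ_mk, starQ_mk, starQ_mk, star_add, map_add]

theorem mkQ_star (a : R) : mkQ m (star a) = star (mkQ m a) := rfl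

theorem QQ_regular (hR : IsStarRegular R) : IsStarRegular (QQ m) := by
  obtain ⟨p, hp⟩ := exists_mp hR
  constructor
  · intro a
    obtain ⟨a, rfl⟩ := mkQ_surj m a
    exact ⟨mkQ m (p a), by rw [← map_mul, ← map_mul, (hp a).1]⟩
  · intro a ha
    obtain ⟨a, rfl⟩ := mkQ_surj m a
    have : a = star (p a) * (star a * a) := by
      rw [← mul_assoc, ← star_mul, (hp a).2.2.1, (hp a).1]
    rw [this, map_mul, map_mul, mkQ_star m a, ha, mul_zero]

theorem mkQ_zero (hR : IsStarRegular R) (c : ZZ R) (hc : c ∈ m) : mkQ m c.1 = 0 := by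
  obtain ⟨p, hp⟩ := exists_mp hR
  rw [← map_zero (mkQ m), mkQ_eq]
  refine ⟨1 - c * ⟨p c.1, mp_mem c.2 (hp _)⟩, ?_, ?_⟩
  · intro h
    apply (Ideal.ne_top_iff_one m).1 hm.ne_top
    have := m.add_mem h (m.mul_mem_right ⟨p c.1, mp_mem c.2 (hp _)⟩ hc)
    simpa using this
  · simp [sub_mul, (hp c.1).1]

omit hm in
theorem holds_all (hR : IsStarRegular R) {s t : Tm}
    (h : ∀ (A : Type u) [Ring A] [StarRing A], IsStarRegular A → IsArtinianRing A →
      IsArtinianRing Aᵐᵒᵖ → Holds A s t) : Holds R s t := by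
  intro p hp v
  by_contra hne
  let I : Ideal (ZZ R) :=
    { carrier := {c | c.1 * s.eval p v = c.1 * t.eval p v}
      add_mem' := by
        intro a b ha hb
        simp only [Set.mem_ofPred_eq, Subring.coe_add, add_mul] at *
        rw [ha, hb]
      zero_mem' := by simp
      smul_mem' := by
        intro a b hb
        simp only [Set.mem_ofPred_eq, smul_eq_mul, Subring.coe_mul, mul_assoc] at *
        rw [hb] }
  have hI : I ≠ ⊤ := by
    rw [Ideal.ne_top_iff_one]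
    intro h1
    apply hne
    have h2 : (1 : R) * s.eval p v = 1 * t.eval p v := h1
    rwa [one_mul, one_mul] at h2
  obtain ⟨m, hm, hIm⟩ := Ideal.exists_le_maximal I hI
  let _ : Field (ZZ R ⧸ m) := Ideal.Quotient.field m
  let φ : (ZZ R ⧸ m) →+* QQ m := Ideal.Quotient.lift m ((mkQ m).comp (ZZ R).subtype)
    (fun c hc => mkQ_zero m hR c hc)
  have hφ : ∀ c : ZZ R, φ (Ideal.Quotient.mk m c) = mkQ m c.1 := fun c => rfl
  let _ : Algebra (ZZ R ⧸ m) (QQ m) := φ.toAlgebra' (by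
    intro c y
    obtain ⟨c, rfl⟩ := Ideal.Quotient.mk_surjective c
    obtain ⟨y, rfl⟩ := mkQ_surj m y
    rw [hφ, ← map_mul, ← map_mul, c.2.2])
  have h1 : Holds (QQ m) s t := by
    refine holds_of_algebra (K := ZZ R ⧸ m) (QQ_regular m hR) ?_ h
    intro c y
    obtain ⟨c, rfl⟩ := Ideal.Quotient.mk_surjective c
    obtain ⟨y, rfl⟩ := mkQ_surj m y
    show star (φ _ * _) = φ _ * _
    rw [hφ, ← map_mul, ← mkQ_star, ← mkQ_star, ← map_mul, star_mul, c.2.1, c.2.2]
  obtain ⟨q, hq⟩ := exists_mp (QQ_regular m hR)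
  have h2 := h1 q hq (fun n => mkQ m (v n))
  rw [← eval_hom (mkQ m) (mkQ_star m) hp hq, ← eval_hom (mkQ m) (mkQ_star m) hp hq, mkQ_eq] at h2
  obtain ⟨c, hc1, hc2⟩ := h2
  exact hc1 (hIm hc2)

end Pool.Agent.H556Z.SR
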