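import Pool.Agent.H556Z.MP
import Pool.Agent.H556Z.Lin

/-! Representable star-regular rings satisfy the identities of the artinian ones. -/

namespace Pool.Agent.H556Z.SR

open Matrix Filter

universe u

/-- an anisotropic hermitian matrix -/
structure Gram (S : Type u) [Fintype S] [DecidableEq S] (F : Type u) [DivisionRing F]
    [StarRing F] where
  Γ : Matrix S S F
  Γi : Matrix S S F
  mul_inv : Γ * Γi = 1
  inv_mul : Γi * Γ = 1
  herm : Γᴴ = Γ
  aniso : ∀ v : S → F, ∑ a, ∑ b, star (v a) * Γ a b * v b = 0 → v = 0

section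
variable {S : Type u} [Fintype S] [DecidableEq S] {F : Type u} [DivisionRing F] [StarRing F]

theorem Gram.herm_inv (g : Gram S F) : g.Γiᴴ = g.Γi := by
  have h1 : g.Γiᴴ * g.Γ = 1 := by
    have := congrArg conjTranspose g.mul_inv
    rwa [conjTranspose_mul, g.herm, conjTranspose_one] at this
  rw [← mul_one g.Γiᴴ, ← g.mul_inv, ← mul_assoc, h1, one_mul]

/-- matrices with the adjoint involution -/
def Tw (_g : Gram S F) : Type u := Matrix S S F

instance (g : Gram S F) : Ring (Tw g) := inferInstanceAs (Ring (Matrix S S F))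

def Tw.mat {g : Gram S F} : Tw g ≃+* Matrix S S F := RingEquiv.refl _

instance (g : Gram S F) : StarRing (Tw g) where
  star a := Tw.mat.symm (g.Γi * (Tw.mat a)ᴴ * g.Γ)
  star_involutive a := by
    apply Tw.mat.injective
    simp only [RingEquiv.apply_symm_apply, conjTranspose_mul, conjTranspose_conjTranspose,
      g.herm, g.herm_inv]
    rw [← mul_assoc, ← mul_assoc, g.inv_mul, one_mul, mul_assoc, g.inv_mul, mul_one]
  star_mul a b := by
    apply Tw.mat.injective
    simp only [RingEquiv.apply_symm_apply, conjTranspose_mul, map_mul]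
    simp only [mul_assoc]
    rw [← mul_assoc g.Γ, g.mul_inv, one_mul]
  star_add a b := by
    apply Tw.mat.injective
    simp only [RingEquiv.apply_symm_apply, conjTranspose_add, map_add, mul_add, add_mul]

theorem Tw.mat_star {g : Gram S F} (a : Tw g) : Tw.mat (star a) = g.Γi * (Tw.mat a)ᴴ * g.Γ := rfl

instance (g : Gram S F) : IsSemisimpleRing (Tw g) :=
  inferInstanceAs (IsSemisimpleRing (Matrix S S F))

theorem regular_of_semisimple {A : Type*} [Ring A] [IsSemisimpleRing A] (a : A) :
    ∃ x, a * x * a = a := by
  obtain ⟨e, he, h⟩ := IsSemisimpleRing.ideal_eq_span_idempotent (Ideal.span {a})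
  have h1 : e ∈ Ideal.span {a} := h ▸ Ideal.subset_span rfl
  have h2 : a ∈ Ideal.span {e} := h ▸ Ideal.subset_span rfl
  obtain ⟨x, hx⟩ := Ideal.mem_span_singleton'.1 h1
  obtain ⟨y, hy⟩ := Ideal.mem_span_singleton'.1 h2
  refine ⟨x, ?_⟩
  rw [mul_assoc, hx, ← hy, mul_assoc, he]

theorem Tw.regular (g : Gram S F) : IsStarRegular (Tw g) := by
  refine ⟨regular_of_semisimple, fun x hx => ?_⟩
  have h1 := congrArg (fun a => g.Γ * Tw.mat a) hx
  simp only [map_mul, Tw.mat_star, map_zero, mul_zero] at h1
  rw [← mul_assoc, ← mul_assoc, ← mul_assoc, g.mul_inv, one_mul] at h1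
  apply Tw.mat.injective
  ext i j
  have h2 := g.aniso (fun a => Tw.mat x a j) (by
    have := congrFun (congrFun h1 j) j
    rw [Finset.sum_comm]
    simpa only [Matrix.mul_apply, conjTranspose_apply, Finset.sum_mul, Matrix.zero_apply]
      using this)
  exact congrFun h2 i

end

section
variable {K R J F : Type u} [Field K] [Ring R] [StarRing R] [Algebra K R]
  [DivisionRing F] [StarRing F] [DecidableEq J]

theorem holds_of_rep (hR : IsStarRegular R) (e : Module.Basis J K R) (κ : K →+* F)
    (hκ : ∀ c y, κ c * y = y * κ c) (f : R →+ F) (hf1 : ∀ (c : K) r, f (c • r) = κ c * f r)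
    (hf2 : ∀ r, f (star r) = star (f r))
    (han : ∀ (S : Finset J) (v : S → F),
      ∑ a : S, ∑ b : S, star (v a) * f (star (e a) * e b) * v b = 0 → v = 0)
    {s t : Tm}
    (h : ∀ (A : Type u) [Ring A] [StarRing A], IsStarRegular A → IsArtinianRing A →
      IsArtinianRing Aᵐᵒᵖ → Holds A s t) : Holds R s t := by
  have hg : ∀ S : Finset J, ∃ g : Gram S F,
      g.Γ = Matrix.of fun a b : S => f (star (e a) * e b) := by
    intro S
    obtain ⟨G, h1, h2⟩ := inv_of_inj (Matrix.of fun a b : S => f (star (e a) * e b)) (by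
      intro y hy
      apply han S
      refine Finset.sum_eq_zero fun a _ => ?_
      have := congrFun hy a
      simp only [mulVec, dotProduct, Matrix.of_apply, Pi.zero_apply] at this
      simp only [mul_assoc, ← Finset.mul_sum, this, mul_zero])
    refine ⟨⟨_, G, h1, h2, ?_, han S⟩, rfl⟩
    ext a b
    simp [← hf2]
  choose g hg using hg
  let RL : (∀ S, Tw (g S)) → R → Prop := fun a r => ∀ j, ∀ᶠ S : Finset J in atTop,
    ∀ (hj : j ∈ S) (i : S), Tw.mat (a S) i ⟨j, hj⟩ = κ (e.repr (r * e j) i)
  have hsum : ∀ (S : Finset J) (r : R), (e.repr r).support ⊆ S →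
      r = ∑ l : S, e.repr r l • e l := by
    intro S r hS
    rw [Finset.sum_coe_sort S (fun l => e.repr r l • e l)]
    conv_lhs => rw [← e.linearCombination_repr r, Finsupp.linearCombination_apply, Finsupp.sum]
    refine Finset.sum_subset hS fun l _ hl => ?_
    rw [Finsupp.notMem_support_iff.1 hl, zero_smul]
  have RL0 : RL 0 0 := fun j => Eventually.of_forall fun S hj i => by simp
  have RL1 : RL 1 1 := fun j => Eventually.of_forall fun S hj i => by
    rw [Pi.one_apply, map_one, one_mul, e.repr_self, Matrix.one_apply, Finsupp.single_apply]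
    by_cases hij : j = i
    · subst hij; simp
    · rw [if_neg hij, if_neg (fun h => hij (by rw [h])), map_zero]
  have RLadd : ∀ {a b r s}, RL a r → RL b s → RL (a + b) (r + s) := by
    intro a b r s h1 h2 j
    filter_upwards [h1 j, h2 j] with S k1 k2 hj i
    rw [Pi.add_apply, map_add, Matrix.add_apply, k1, k2, add_mul, map_add, Finsupp.add_apply,
      map_add]
  have RLneg : ∀ {a r}, RL a r → RL (-a) (-r) := by
    intro a r h1 j
    filter_upwards [h1 j] with S k1 hj i
    rw [Pi.neg_apply, map_neg, Matrix.neg_apply, k1, neg_mul, map_neg, Finsupp.neg_apply,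
      map_neg]
  have RLmul : ∀ {a b r s}, RL a r → RL b s → RL (a * b) (r * s) := by
    intro a b r s h1 h2 j
    filter_upwards [h2 j, eventually_ge_atTop (e.repr (s * e j)).support,
      (eventually_all_finset (e.repr (s * e j)).support).2 fun l _ => h1 l] with S k2 k3 k1 hj i
    rw [Pi.mul_apply, map_mul, Matrix.mul_apply, mul_assoc, hsum S (s * e j) k3, Finset.mul_sum,
      map_sum, Finsupp.finsetSum_apply, map_sum]
    refine Finset.sum_congr rfl fun l _ => ?_
    rw [k2, mul_smul_comm, map_smul, Finsupp.smul_apply, smul_eq_mul, map_mul κ]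
    by_cases hl : (l : J) ∈ (e.repr (s * e j)).support
    · rw [k1 l hl l.2 i, hκ]
    · rw [Finsupp.notMem_support_iff.1 hl]; simp
  have RLker : ∀ {a b}, RL b 0 → RL (a * b) 0 := by
    intro a b h2 j
    filter_upwards [h2 j] with S k2 hj i
    rw [Pi.mul_apply, map_mul, Matrix.mul_apply]
    simp [k2]
  let cmp : R → ∀ S, Tw (g S) := fun r S =>
    Tw.mat.symm ((g S).Γi * Matrix.of fun a b : S => f (star (e a) * r * e b))
  have RLcmp : ∀ r, RL (cmp r) r := by
    intro r j
    filter_upwards [eventually_ge_atTop (e.repr (r * e j)).support] with S k hj i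
    have e1 : ∀ a : S, f (star (e a) * r * e j) =
        ((g S).Γ *ᵥ fun l : S => κ (e.repr (r * e j) l)) a := by
      intro a
      rw [mul_assoc]
      conv_lhs => rw [hsum S (r * e j) k]
      simp only [Finset.mul_sum, map_sum, mul_smul_comm, hf1, hg, mulVec, dotProduct,
        Matrix.of_apply, hκ]
    have e2 := congrFun (Matrix.mulVec_mulVec (fun l : S => κ (e.repr (r * e j) l))
      (g S).Γi (g S).Γ) i
    rw [(g S).inv_mul, Matrix.one_mulVec] at e2
    rw [← e2]
    simp only [cmp, RingEquiv.apply_symm_apply, Matrix.mul_apply, Matrix.of_apply, e1]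
    rfl
  have cmpstar : ∀ r, star (cmp r) = cmp (star r) := by
    intro r
    funext S
    apply Tw.mat.injective
    rw [Pi.star_apply, Tw.mat_star]
    simp only [cmp, RingEquiv.apply_symm_apply, conjTranspose_mul, (g S).herm_inv]
    rw [mul_assoc, mul_assoc, (g S).inv_mul, mul_one]
    congr 1
    ext a b
    simp [← hf2, mul_assoc]
  have good : GoodRel (fun a r => RL a r ∧ RL (star a) (star r)) :=
    { zero := by simpa using RL0
      one := by simpa using RL1
      add := fun h1 h2 => ⟨RLadd h1.1 h2.1, by simpa only [star_add] using RLadd h1.2 h2.2⟩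
      neg := fun h1 => ⟨RLneg h1.1, by simpa only [star_neg] using RLneg h1.2⟩
      mul := fun h1 h2 => ⟨RLmul h1.1 h2.1, by simpa only [star_mul] using RLmul h2.2 h1.2⟩
      star := fun h1 => ⟨h1.2, by simpa only [star_star] using h1.1⟩
      func := by
        intro r h1
        have h2 : ∀ j, r * e j = 0 := by
          intro j
          apply e.repr.injective
          ext i
          obtain ⟨S, k1, k2⟩ := ((h1.1 j).and (eventually_ge_atTop {i, j})).exists
          have := k1 (k2 (by simp)) ⟨i, k2 (by simp)⟩
          apply κ.injective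
          rw [← this]
          simp
        have h3 : LinearMap.mulLeft K r = 0 := e.ext fun j => by simpa using h2 j
        simpa using LinearMap.congr_fun h3 1
      surj := fun r => ⟨cmp r, RLcmp r, by rw [cmpstar]; exact RLcmp _⟩
      ker := by
        intro a b h1 hb
        rw [star_zero] at h1 ⊢
        obtain ⟨-, e2, e3, e4⟩ := hb
        constructor
        · have : b = b * star b * star a := by rw [mul_assoc, ← star_mul, e3, ← mul_assoc, e2]
          rw [this]
          exact RLker h1.2
        · have : star b = star b * b * a := by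
            rw [mul_assoc, ← e4, ← star_mul, e2]
          rw [this]
          exact RLker h1.1 }
  refine good.holds (pi_regular fun S => Tw.regular (g S)) hR
    (pi_holds (fun S => Tw.regular (g S)) fun S => ?_)
  exact h _ (Tw.regular (g S)) inferInstance inferInstance

end

end Pool.Agent.H556Z.SR
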